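import Pool.Agent.Y116.MT.HomNum

/-!
# The tensor product of a symmetric monoidal category is a braided functor
-/

set_option autoImplicit false
set_option linter.unusedSectionVars false
set_option linter.unusedSimpArgs false
set_option backward.isDefEq.respectTransparency false
set_option backward.defeqAttrib.useBackward true

open CategoryTheory Limits MonoidalCategory Pretriangulated Triangulated

namespace Pool.Agent.V1139.MT

open Pool.Agent.Y116.MT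

universe v u w

open Functor.LaxMonoidal

section Sym

variable {C : Type u} [Category.{v} C] [MonoidalCategory C] [SymmetricCategory C]

lemma tensorμ_braiding (X₁ X₂ Y₁ Y₂ : C) :
    tensorμ X₁ X₂ Y₁ Y₂ ≫ ((β_ X₁ Y₁).hom ⊗ₘ (β_ X₂ Y₂).hom) =
      (β_ (X₁ ⊗ X₂) (Y₁ ⊗ Y₂)).hom ≫ tensorμ Y₁ Y₂ X₁ X₂ := by
  simp only [tensorμ, Category.assoc,
    BraidedCategory.braiding_tensor_right_hom, BraidedCategory.braiding_tensor_left_hom,
    comp_whiskerRight, whisker_assoc, MonoidalCategory.whiskerLeft_comp, pentagon_assoc,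
    pentagon_inv_hom_hom_hom_inv_assoc, Iso.inv_hom_id_assoc, whiskerLeft_hom_inv_assoc]
  have h1 : Y₁ ◁ (β_ X₁ Y₂).hom ▷ X₂ ≫ Y₁ ◁ (β_ Y₂ X₁).hom ▷ X₂ = 𝟙 _ := by
    rw [← MonoidalCategory.whiskerLeft_comp, ← comp_whiskerRight, SymmetricCategory.symmetry,
      id_whiskerRight, MonoidalCategory.whiskerLeft_id]
  rw [reassoc_of% h1, whiskerLeft_inv_hom_assoc, associator_naturality_left_assoc,
    MonoidalCategory.tensorHom_def]
  congr 3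
  have h2 : (α_ Y₁ X₁ (X₂ ⊗ Y₂)).hom ≫ Y₁ ◁ X₁ ◁ (β_ X₂ Y₂).hom ≫
      (α_ Y₁ X₁ (Y₂ ⊗ X₂)).inv = (Y₁ ⊗ X₁) ◁ (β_ X₂ Y₂).hom := by simp
  rw [h2, pentagon_inv_inv_hom_hom_inv_assoc]

/-- The braiding of a product of two braided categories. -/
instance prodBraided : BraidedCategory (C × C) where
  braiding X Y := Iso.prod (β_ X.1 Y.1) (β_ X.2 Y.2)

instance prodSymmetric : SymmetricCategory (C × C) where
  symmetry X Y := by
    ext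
    · exact SymmetricCategory.symmetry X.1 Y.1
    · exact SymmetricCategory.symmetry X.2 Y.2

/-- If the symmetries of `A` and `B` are multiples of the identity, so is the symmetry of their product. -/
lemma sign_tensor [Preadditive C] [MonoidalPreadditive C] (A B : C) (a b : ℤ)
    (hA : (β_ A A).hom = a • 𝟙 _) (hB : (β_ B B).hom = b • 𝟙 _) :
    (β_ (A ⊗ B) (A ⊗ B)).hom = (a * b) • 𝟙 _ := by
  have h1 := tensorμ_braiding A B A B
  rw [hA, hB] at h1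
  have h3 : (((a • 𝟙 (A ⊗ A) : A ⊗ A ⟶ A ⊗ A)) ⊗ₘ ((b • 𝟙 (B ⊗ B) : B ⊗ B ⟶ B ⊗ B))) =
      (a * b) • 𝟙 _ := by
    rw [MonoidalCategory.tensorHom_def, wr_zsmul, wl_zsmul, id_whiskerRight,
      MonoidalCategory.whiskerLeft_id, Preadditive.zsmul_comp, Preadditive.comp_zsmul,
      Category.id_comp, smul_smul]
  have h2 : tensorμ A B A B ≫ tensorδ A B A B = 𝟙 _ := tensorμ_tensorδ A B A B
  rw [h3, Preadditive.comp_zsmul, Category.comp_id] at h1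
  have h5 := congrArg (fun z => z ≫ tensorδ A B A B) h1
  simp only [Category.assoc, Preadditive.zsmul_comp, h2, Category.comp_id] at h5
  exact h5.symm

lemma sign_iso [Preadditive C] [MonoidalPreadditive C] {A B : C} (e : A ≅ B) (a : ℤ)
    (hA : (β_ A A).hom = a • 𝟙 _) : (β_ B B).hom = a • 𝟙 _ := by
  have h1 : (e.hom ⊗ₘ e.hom) ≫ (β_ B B).hom = (β_ A A).hom ≫ (e.hom ⊗ₘ e.hom) :=
    BraidedCategory.braiding_naturality e.hom e.hom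
  rw [← cancel_epi (e.hom ⊗ₘ e.hom), h1, hA, Preadditive.zsmul_comp, Preadditive.comp_zsmul,
    Category.id_comp, Category.comp_id]

lemma exch_sign [Preadditive C] [MonoidalPreadditive C] (V W : C) (a : ℤ)
    (hA : (β_ W W).hom = a • 𝟙 _) : (exch V W W).hom = a • 𝟙 _ := by
  simp only [exch, Iso.trans_hom, whiskerLeftIso_hom, Iso.symm_hom, hA,
    wl_zsmul, MonoidalCategory.whiskerLeft_id, Preadditive.zsmul_comp,
    Preadditive.comp_zsmul, Category.id_comp, Iso.hom_inv_id]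

lemma mv_sign [Preadditive C] [MonoidalPreadditive C] (V W : C) 
    (hA : (β_ W W).hom = (-1 : ℤ) • 𝟙 _) (n : ℕ) : ∀ i : Fin (n + 1),
    mv V W n i = ((-1 : ℤ) ^ (n + i.val)) • 𝟙 _ := by
  induction n with
  | zero =>
    intro i
    obtain rfl : i = 0 := Subsingleton.elim (α := Fin 1) _ _
    simp [mv]
  | succ n ih =>
    intro i
    refine Fin.lastCases ?_ (fun j => ?_) i
    · rw [mv_last, Fin.val_last, Even.neg_one_pow ⟨n + 1, rfl⟩, one_zsmul]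
    · rw [mv_castSucc, ih j, exch_sign _ _ _ hA, wr_zsmul, id_whiskerRight,
        Preadditive.zsmul_comp, Preadditive.comp_zsmul, Category.id_comp, smul_smul,
        Fin.val_castSucc, show n + 1 + j.val = (n + j.val) + 1 by omega, pow_succ]

end Sym

section Tri

variable {C : Type u} [Category.{v} C] [Preadditive C] [HasZeroObject C] [HasShift C ℤ]
  [∀ n : ℤ, (shiftFunctor C n).Additive] [Pretriangulated C] [MonoidalCategory C]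
  [SymmetricCategory C] [TensorTriangulated C] [MonoidalPreadditive C]

/-- the unit in degree `-i` -/
noncomputable def unitShift (i : ℤ) : (𝟙_ C)⟦i⟧ ⊗ (𝟙_ C)⟦(1 : ℤ)⟧ ≅ (𝟙_ C)⟦i + 1⟧ :=
  rShift ((𝟙_ C)⟦i⟧) (𝟙_ C) 1 ≪≫ (shiftFunctor C (1 : ℤ)).mapIso (ρ_ _) ≪≫
    (shiftFunctorAdd C i 1).symm.app (𝟙_ C)

lemma whisker_unitShift_faithful {X Y : C} {f g : X ⟶ Y}
    (h : f ▷ ((𝟙_ C)⟦(1 : ℤ)⟧) = g ▷ ((𝟙_ C)⟦(1 : ℤ)⟧)) : f = g := by
  have h1 := rShift_natural_left f (𝟙_ C) 1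
  have h2 := rShift_natural_left g (𝟙_ C) 1
  rw [h, h2, cancel_epi] at h1
  have h3 := (shiftFunctor C (1 : ℤ)).map_injective h1
  have h4 : ∀ k : X ⟶ Y, k = (ρ_ X).inv ≫ k ▷ (𝟙_ C) ≫ (ρ_ Y).hom := fun k => by simp
  rw [h4 f, h4 g, h3]

lemma sign_up (i : ℤ) (a : ℤ) (h : (β_ ((𝟙_ C)⟦i⟧) ((𝟙_ C)⟦i⟧)).hom = a • 𝟙 _) :
    (β_ ((𝟙_ C)⟦i + 1⟧) ((𝟙_ C)⟦i + 1⟧)).hom = (-a) • 𝟙 _ := by
  have h1 := sign_tensor ((𝟙_ C)⟦i⟧) ((𝟙_ C)⟦(1 : ℤ)⟧) a (-1) h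
    (by rw [TensorTriangulated.sign, neg_smul, one_smul])
  have h2 := sign_iso (unitShift i) _ h1
  rw [h2]
  congr 1
  ring

lemma sign_down (i : ℤ) (a : ℤ) (h : (β_ ((𝟙_ C)⟦i + 1⟧) ((𝟙_ C)⟦i + 1⟧)).hom = a • 𝟙 _) :
    (β_ ((𝟙_ C)⟦i⟧) ((𝟙_ C)⟦i⟧)).hom = (-a) • 𝟙 _ := by
  have h1 := sign_iso (unitShift (C := C) i).symm _ h
  have h2 := tensorμ_braiding ((𝟙_ C)⟦i⟧) ((𝟙_ C)⟦(1 : ℤ)⟧) ((𝟙_ C)⟦i⟧) ((𝟙_ C)⟦(1 : ℤ)⟧)
  rw [h1, TensorTriangulated.sign, Preadditive.zsmul_comp, Category.id_comp] at h2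
  have h3 := congrArg (fun z => tensorδ ((𝟙_ C)⟦i⟧) ((𝟙_ C)⟦(1 : ℤ)⟧) ((𝟙_ C)⟦i⟧)
    ((𝟙_ C)⟦(1 : ℤ)⟧) ≫ z) h2
  simp only [Preadditive.comp_zsmul, tensorδ_tensorμ, tensorδ_tensorμ_assoc] at h3
  rw [MonoidalCategory.tensorHom_def, wl_neg, MonoidalCategory.whiskerLeft_id,
    Preadditive.comp_neg, Category.comp_id] at h3
  have h4 : (β_ ((𝟙_ C)⟦i⟧) ((𝟙_ C)⟦i⟧)).hom ▷ (((𝟙_ C)⟦(1 : ℤ)⟧) ⊗ ((𝟙_ C)⟦(1 : ℤ)⟧)) =
      ((-a) • 𝟙 (((𝟙_ C)⟦i⟧) ⊗ ((𝟙_ C)⟦i⟧)) : ((𝟙_ C)⟦i⟧) ⊗ ((𝟙_ C)⟦i⟧) ⟶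
        ((𝟙_ C)⟦i⟧) ⊗ ((𝟙_ C)⟦i⟧)) ▷ (((𝟙_ C)⟦(1 : ℤ)⟧) ⊗ ((𝟙_ C)⟦(1 : ℤ)⟧)) := by
    rw [wr_zsmul, id_whiskerRight, neg_smul, ← h3, neg_neg]
  apply whisker_unitShift_faithful
  apply whisker_unitShift_faithful
  simpa only [MonoidalCategory.whiskerRight_tensor, cancel_epi, cancel_mono] using h4

/-- The symmetry of the unit in degree `-i` is the sign `(-1)^i`. -/
theorem sign_unit (i : ℤ) : (β_ ((𝟙_ C)⟦i⟧) ((𝟙_ C)⟦i⟧)).hom = (i.negOnePow : ℤ) • 𝟙 _ := by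
  induction i using Int.induction_on with
  | zero =>
    have h0 : (β_ (𝟙_ C) (𝟙_ C)).hom = (1 : ℤ) • 𝟙 _ := by
      rw [braiding_tensorUnit_left, one_smul, unitors_equal, Iso.hom_inv_id]
    have h1 := sign_iso ((shiftFunctorZero C ℤ).symm.app (𝟙_ C)) _ h0
    simpa using h1
  | succ n ih =>
    have h1 := sign_up _ _ ih
    rw [h1, Int.negOnePow_succ]
    simp
  | pred n ih =>
    have h1 := sign_down (C := C) (-(n : ℤ) - 1) _ (by rw [sub_add_cancel]; exact ih)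
    rw [h1]
    have h2 : (-(n : ℤ)).negOnePow = -((-(n : ℤ) - 1).negOnePow) := by
      conv_lhs => rw [show -(n : ℤ) = (-(n : ℤ) - 1) + 1 by ring]
      rw [Int.negOnePow_succ]
    rw [h2]
    simp

end Tri

end Pool.Agent.V1139.MT
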