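import Pool.Agent.V1139.MT.Main
import Pool.Agent.V1151.MTC.Main

/-!
# One realisation suffices, over all fields
-/

set_option autoImplicit false
set_option linter.unusedSectionVars false
set_option linter.unusedSimpArgs false
set_option backward.isDefEq.respectTransparency false
set_option backward.defeqAttrib.useBackward true

open CategoryTheory Limits MonoidalCategory Pretriangulated Triangulated Polynomial

namespace Pool.Agent.V1139.MT

open Pool.Agent.Y116.MT Pool.Agent.V1151.MTC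

universe v u w

section

variable {C : Type u} [Category.{v} C] [Preadditive C] [HasZeroObject C] [HasShift C ℤ]
  [∀ n : ℤ, (shiftFunctor C n).Additive] [Pretriangulated C] [IsTriangulated C]
  [MonoidalCategory C] [SymmetricCategory C] [TensorTriangulated C] [MonoidalPreadditive C]
  [RightRigidCategory C] (hid : ∀ e : 𝟙_ C ⟶ 𝟙_ C, e ≫ e = e → e = 0 ∨ e = 𝟙 _)
  {Λ : Type} {E : Λ → Type w} [∀ l, Field (E l)] [∀ l, CharZero (E l)]
  (R : ∀ l, Realisation C (E l)) {Chow : C → Prop} (hgen : ∀ X : C, Built Chow X)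
  (hF : ∀ l l', HasFrobenius (R l) (R l') Chow)

include hid hgen hF

/-- A t-structure with one exact and conservative realisation is motivic for all of them. -/
theorem motivic_of_one {t : TStructure C} {l : Λ} (he : IsExact t (R l))
    (hc : Conservative (R l)) : IsMotivic t R := by
  have hm : IsMotivic t (fun _ : Unit => R l) := motivic_of_exact (R := fun _ : Unit => R l) (fun _ => he) () hc
  have ht : TensorCompat t := ⟨hm.tensor_le, hm.tensor_ge⟩
  have hu : Hrt t (𝟙_ C) := unit_hrt ht hm.nondeg_le hm.nondeg_ge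
  have he' : TExact t (R l) := ⟨hm.exact_le (), hm.exact_ge ()⟩
  have h : ∀ l', TExact t (R l') := fun l' =>
    texact he' ht hu hid hm.nondeg_le hm.nondeg_ge hgen (hF l l')
  exact ⟨hm.nondeg_le, hm.nondeg_ge, hm.tensor_le, hm.tensor_ge, fun l' => (h l').le,
    fun l' => (h l').ge⟩

end

section

variable {C : Type u} [Category.{v} C] [Preadditive C] [HasZeroObject C] [HasShift C ℤ]
  [∀ n : ℤ, (shiftFunctor C n).Additive] [Pretriangulated C] [IsTriangulated C]
  [MonoidalCategory C] [SymmetricCategory C] [TensorTriangulated C]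
  {I : Type} {K : I → Type u} [∀ i, Category.{v} (K i)] [∀ i, Preadditive (K i)]
  [∀ i, HasZeroObject (K i)] [∀ i, HasShift (K i) ℤ]
  [∀ i, ∀ n : ℤ, (shiftFunctor (K i) n).Additive] [∀ i, Pretriangulated (K i)]
  [∀ i, IsTriangulated (K i)] [∀ i, MonoidalCategory (K i)] [∀ i, SymmetricCategory (K i)]
  [∀ i, TensorTriangulated (K i)] [∀ i, MonoidalPreadditive (K i)]
  [∀ i, RightRigidCategory (K i)]
  (b : ∀ i, K i ⥤ C) [∀ i, (b i).CommShift ℤ] [∀ i, (b i).IsTriangulated]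
  {Λ : Type} {E : Λ → Type w} [∀ l, Field (E l)]
  (R : ∀ l, Realisation C (E l)) (S : ∀ i l, Realisation (K i) (E l))
  (hcomp : ∀ i l, Nonempty (b i ⋙ (R l).H ≅ (S i l).H))
  (hmor : ∀ (X Y : C) (f : X ⟶ Y), ∃ (i : I) (X' Y' : K i) (f' : X' ⟶ Y')
    (a : (b i).obj X' ≅ X) (c : (b i).obj Y' ≅ Y), f = a.inv ≫ (b i).map f' ≫ c.hom)

include hcomp

lemma coh_iso (i : I) (l : Λ) (X : K i) (n : ℤ) :
    IsZero ((S i l).H.obj (X⟦n⟧)) ↔ IsZero ((R l).H.obj (((b i).obj X)⟦n⟧)) := by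
  obtain ⟨e⟩ := hcomp i l
  have e1 : (R l).H.obj (((b i).obj X)⟦n⟧) ≅ (S i l).H.obj (X⟦n⟧) :=
    (R l).H.mapIso (((b i).commShiftIso n).app X).symm ≪≫ e.app (X⟦n⟧)
  exact ⟨fun h => h.of_iso e1, fun h => h.of_iso e1.symm⟩

lemma cohLE_iff {i : I} {l : Λ} {X : K i} {Y : C} (a : (b i).obj X ≅ Y) (n : ℤ) :
    CohLE (S i l) n X ↔ CohLE (R l) n Y := by
  constructor
  · intro h
    exact CohLE.iso (fun j hj => (coh_iso b R S hcomp i l X j).1 (h j hj)) a
  · intro h j hj
    exact (coh_iso b R S hcomp i l X j).2 (CohLE.iso h a.symm j hj)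

lemma cohGE_iff {i : I} {l : Λ} {X : K i} {Y : C} (a : (b i).obj X ≅ Y) (n : ℤ) :
    CohGE (S i l) n X ↔ CohGE (R l) n Y := by
  constructor
  · intro h
    exact CohGE.iso (fun j hj => (coh_iso b R S hcomp i l X j).1 (h j hj)) a
  · intro h j hj
    exact (coh_iso b R S hcomp i l X j).2 (CohGE.iso h a.symm j hj)

include hmor

/-- Continuity of motivic t-structures. -/
theorem cont (hid : ∀ i, ∀ e : 𝟙_ (K i) ⟶ 𝟙_ (K i), e ≫ e = e → e = 0 ∨ e = 𝟙 _) [Nonempty Λ]
    (h : ∀ i, ∃ t : TStructure (K i), IsMotivic t (S i)) :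
    ∃ t : TStructure C, IsMotivic t R ∧ ∀ (i : I) (t' : TStructure (K i)), IsMotivic t' (S i) →
      ∀ (n : ℤ) (X : K i), (t'.le n X ↔ t.le n ((b i).obj X)) ∧
        (t'.ge n X ↔ t.ge n ((b i).obj X)) := by
  obtain ⟨l₀⟩ := ‹Nonempty Λ›
  have hdef : ∀ (i : I) (t' : TStructure (K i)), IsMotivic t' (S i) → ∀ l,
      IsDefinedBy t' (S i l) := fun i t' ht' l =>
    isDefinedBy (mot_exact ht' l) (mot_conservative ht' (hid i) l)
  have hobj : ∀ X : C, ∃ (i : I) (X' : K i), Nonempty ((b i).obj X' ≅ X) := by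
    intro X
    obtain ⟨i, X', Y', f', a, c, _⟩ := hmor X X (𝟙 X)
    exact ⟨i, X', ⟨a⟩⟩
  have hint : Intrinsic R l₀ := by
    constructor
    · intro X hX
      obtain ⟨i, X', ⟨a⟩⟩ := hobj X
      obtain ⟨t', ht'⟩ := h i
      have h1 : IsZero X' := by
        apply mot_conservative ht' (hid i) l₀
        intro j
        rw [coh_iso b R S hcomp i l₀ X' j]
        exact (hX j).of_iso ((R l₀).H.mapIso ((shiftFunctor C j).mapIso a))
      exact ((b i).map_isZero h1).of_iso a.symm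
    · intro X Y f hX hY
      obtain ⟨i, X', Y', f', a, c, rfl⟩ := hmor X Y f
      obtain ⟨t', ht'⟩ := h i
      have h1 := (hdef i t' ht' l₀ 0 X').1.2 ((cohLE_iff b R S hcomp a 0).2 hX)
      have h2 := (hdef i t' ht' l₀ 1 Y').2.2 ((cohGE_iff b R S hcomp c 1).2 hY)
      have h3 : f' = 0 := t'.zero_of_isLE_of_isGE f' 0 1 (by omega) ⟨h1⟩ ⟨h2⟩
      rw [h3, Functor.map_zero, Limits.zero_comp, Limits.comp_zero]
    · intro X
      obtain ⟨i, X', ⟨a⟩⟩ := hobj X
      obtain ⟨t', ht'⟩ := h i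
      obtain ⟨A, B, hA, hB, f, g, k, hT⟩ := t'.exists_triangle_zero_one X'
      have h1 := (b i).map_distinguished _ hT
      refine ⟨(b i).obj A, (b i).obj B, (b i).map f ≫ a.hom, a.inv ≫ (b i).map g,
        (b i).map k ≫ ((b i).commShiftIso (1 : ℤ)).hom.app A, ?_, ?_, ?_⟩
      · refine isomorphic_distinguished _ h1 _ ?_
        exact Triangle.isoMk _ _ (Iso.refl _) a.symm (Iso.refl _) (by simp) (by simp) (by simp)
      · exact (cohLE_iff b R S hcomp (Iso.refl _) 0).1 ((hdef i t' ht' l₀ 0 A).1.1 hA)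
      · exact (cohGE_iff b R S hcomp (Iso.refl _) 1).1 ((hdef i t' ht' l₀ 1 B).2.1 hB)
    · intro l X
      obtain ⟨i, X', ⟨a⟩⟩ := hobj X
      obtain ⟨t', ht'⟩ := h i
      constructor
      · intro hX
        have h1 := (hdef i t' ht' l₀ 0 X').1.2 ((cohLE_iff b R S hcomp a 0).2 hX)
        exact (cohLE_iff b R S hcomp a 0).1 ((hdef i t' ht' l 0 X').1.1 h1)
      · intro hX
        have h1 := (hdef i t' ht' l₀ 0 X').2.2 ((cohGE_iff b R S hcomp a 0).2 hX)
        exact (cohGE_iff b R S hcomp a 0).1 ((hdef i t' ht' l 0 X').2.1 h1)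
  have hex : ∀ l, IsExact hint.t (R l) := fun l X =>
    ⟨fun hX => (hint.amplitude l X).1 hX, fun hX => (hint.amplitude l X).2 hX⟩
  refine ⟨hint.t, motivic_of_exact hex l₀ hint.conservative, ?_⟩
  intro i t' ht' n X
  exact ⟨((hdef i t' ht' l₀ n X).1).trans (cohLE_iff b R S hcomp (Iso.refl _) n),
    ((hdef i t' ht' l₀ n X).2).trans (cohGE_iff b R S hcomp (Iso.refl _) n)⟩

end

end Pool.Agent.V1139.MT
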