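import Mathlib

/-!
# Characteristic polynomials and exact sequences
-/

set_option autoImplicit false

namespace Pool.Agent.V1139.MT

open Polynomial Module

section LA

variable {F : Type*} [Field F] [Infinite F]

theorem charpoly_eq_mul {V : Type*} [AddCommGroup V] [Module F V] [FiniteDimensional F V]
    {W : Submodule F V} {e : V →ₗ[F] V} (he : W ≤ W.comap e) :
    e.charpoly = (e.restrict he).charpoly * (W.mapQ W e he).charpoly := by
  apply Polynomial.funext
  intro t
  rw [eval_mul, LinearMap.eval_charpoly, LinearMap.eval_charpoly, LinearMap.eval_charpoly]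
  have h1 : W ≤ W.comap (algebraMap F (End F V) t - e) := by
    intro x hx
    rw [Submodule.mem_comap, LinearMap.sub_apply, Module.algebraMap_end_apply]
    exact W.sub_mem (W.smul_mem _ hx) (he hx)
  rw [LinearMap.det_eq_det_mul_det W _ h1]
  congr 2
  apply LinearMap.ext
  intro x
  obtain ⟨x, rfl⟩ := W.mkQ_surjective x
  simp

variable {V V' : Type*} [AddCommGroup V] [Module F V] [FiniteDimensional F V] [AddCommGroup V']
  [Module F V'] [FiniteDimensional F V'] {e : V →ₗ[F] V} {e' : V' →ₗ[F] V'} (g : V →ₗ[F] V')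

omit [Infinite F] [FiniteDimensional F V] [FiniteDimensional F V'] in
lemma range_le_comap (hc : ∀ x, g (e x) = e' (g x)) :
    LinearMap.range g ≤ (LinearMap.range g).comap e' := by
  rintro _ ⟨x, rfl⟩
  exact ⟨e x, hc x⟩

omit [Infinite F] [FiniteDimensional F V] [FiniteDimensional F V'] in
lemma ker_le_comap (hc : ∀ x, g (e x) = e' (g x)) :
    LinearMap.ker g ≤ (LinearMap.ker g).comap e := by
  intro x hx
  rw [Submodule.mem_comap, LinearMap.mem_ker, hc, LinearMap.mem_ker.1 hx, map_zero]

/-- The characteristic polynomial of the restriction to a stable subspace, and `1` for other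
subspaces. -/
noncomputable def cpr (e : V →ₗ[F] V) (W : Submodule F V) : F[X] := by
  classical
  exact if h : W ≤ W.comap e then (e.restrict h).charpoly else 1

omit [Infinite F] in
lemma cpr_of {W : Submodule F V} (h : W ≤ W.comap e) : cpr e W = (e.restrict h).charpoly := by
  rw [cpr, dif_pos h]

theorem charpoly_ker_range (hc : ∀ x, g (e x) = e' (g x)) :
    e.charpoly = cpr e (LinearMap.ker g) * cpr e' (LinearMap.range g) := by
  rw [cpr_of (ker_le_comap g hc), cpr_of (range_le_comap g hc), charpoly_eq_mul (ker_le_comap g hc)]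
  congr 1
  rw [← LinearEquiv.charpoly_conj (g.quotKerEquivRange)]
  congr 1
  apply LinearMap.ext
  rintro ⟨_, x, rfl⟩
  rw [LinearEquiv.conj_apply_apply]
  have h2 : (g.quotKerEquivRange).symm ⟨g x, x, rfl⟩ = (LinearMap.ker g).mkQ x := by
    rw [LinearEquiv.symm_apply_eq]
    rfl
  rw [h2, Submodule.mkQ_apply, Submodule.mapQ_apply]
  exact Subtype.ext (hc x)

end LA

section Fin

variable {M : Type*} [CommMonoid M]

/-- the product over the even integers -/
noncomputable def evp (u : ℤ → M) : M := ∏ᶠ i : ℤ, if Even i then u i else 1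

/-- the product over the odd integers -/
noncomputable def odp (u : ℤ → M) : M := ∏ᶠ i : ℤ, if Even i then 1 else u i

/-- finite support -/
def Fs (u : ℤ → M) : Prop := ∃ N : ℕ, ∀ i : ℤ, N < i.natAbs → u i = 1

lemma Fs.finite {u : ℤ → M} (h : Fs u) : (Function.mulSupport u).Finite := by
  obtain ⟨N, hN⟩ := h
  refine (Set.finite_Icc (-(N : ℤ)) N).subset fun i hi => ?_
  by_contra hc
  refine hi (hN i ?_)
  rw [Set.mem_Icc] at hc
  omega

lemma Fs.ev {u : ℤ → M} (h : Fs u) : (Function.mulSupport fun i => if Even i then u i else 1).Finite := by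
  refine h.finite.subset fun i hi hc => hi ?_
  simp [hc]

lemma Fs.od {u : ℤ → M} (h : Fs u) : (Function.mulSupport fun i => if Even i then 1 else u i).Finite := by
  refine h.finite.subset fun i hi hc => hi ?_
  simp [hc]

lemma evp_mul {u v : ℤ → M} (hu : Fs u) (hv : Fs v) : evp (fun i => u i * v i) = evp u * evp v := by
  rw [evp, evp, evp, ← finprod_mul_distrib hu.ev hv.ev]
  refine finprod_congr fun i => ?_
  split_ifs <;> simp

lemma odp_mul {u v : ℤ → M} (hu : Fs u) (hv : Fs v) : odp (fun i => u i * v i) = odp u * odp v := by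
  rw [odp, odp, odp, ← finprod_mul_distrib hu.od hv.od]
  refine finprod_congr fun i => ?_
  split_ifs <;> simp

lemma evp_shift (u : ℤ → M) : evp (fun i => u (i - 1)) = odp u := by
  have h := finprod_comp_equiv (Equiv.subRight (1 : ℤ)) (f := fun i => if Even i then 1 else u i)
  rw [evp, odp, ← h]
  refine finprod_congr fun i => ?_
  simp only [Equiv.subRight_apply, Int.even_sub_one]
  by_cases hi : Even i <;> simp [hi]

lemma odp_shift (u : ℤ → M) : odp (fun i => u (i - 1)) = evp u := by
  have h := finprod_comp_equiv (Equiv.subRight (1 : ℤ)) (f := fun i => if Even i then u i else 1)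
  rw [evp, odp, ← h]
  refine finprod_congr fun i => ?_
  simp only [Equiv.subRight_apply, Int.even_sub_one]
  by_cases hi : Even i <;> simp [hi]

lemma Fs.shift {u : ℤ → M} (h : Fs u) : Fs (fun i => u (i - 1)) := by
  obtain ⟨N, hN⟩ := h
  exact ⟨N + 1, fun i hi => hN _ (by omega)⟩

lemma Fs.mul {u v : ℤ → M} (hu : Fs u) (hv : Fs v) : Fs (fun i => u i * v i) := by
  obtain ⟨N, hN⟩ := hu
  obtain ⟨N', hN'⟩ := hv
  refine ⟨max N N', fun i hi => ?_⟩
  simp only []
  rw [hN i (by omega), hN' i (by omega), one_mul]

/-- The Euler identity for exact sequences. -/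
theorem euler {a b c x y z : ℤ → M} (ha : Fs a) (hb : Fs b) (hc : Fs c)
    (hy : ∀ i, y i = a i * b i) (hz : ∀ i, z i = b i * c i) (hx : ∀ i, x i = c (i - 1) * a i) :
    evp x * evp z * odp y = odp x * odp z * evp y := by
  rw [show x = fun i => c (i - 1) * a i from funext hx, show y = fun i => a i * b i from funext hy,
    show z = fun i => b i * c i from funext hz, evp_mul hc.shift ha, evp_mul hb hc, odp_mul ha hb,
    odp_mul hc.shift ha, odp_mul hb hc, evp_mul ha hb, evp_shift, odp_shift]
  simp only [mul_assoc, mul_comm, mul_left_comm]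

lemma evp_one {u : ℤ → M} (h : ∀ i, Even i → u i = 1) : evp u = 1 := by
  rw [evp]
  have h1 : (fun i => if Even i then u i else 1) = fun _ : ℤ => (1 : M) := by
    funext i
    split_ifs with hi
    · exact h i hi
    · rfl
  rw [h1, finprod_one]

lemma odp_one {u : ℤ → M} (h : ∀ i, Odd i → u i = 1) : odp u = 1 := by
  rw [odp]
  have h1 : (fun i => if Even i then 1 else u i) = fun _ : ℤ => (1 : M) := by
    funext i
    split_ifs with hi
    · rfl
    · exact h i (Int.not_even_iff_odd.1 hi)
  rw [h1, finprod_one]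

lemma evp_single {u : ℤ → M} (h : ∀ i, i ≠ 0 → u i = 1) : evp u = u 0 := by
  rw [evp, finprod_eq_single _ 0]
  · simp
  · intro i hi
    split_ifs
    · exact h i hi
    · rfl

lemma dvd_evp {u : ℤ → M} (hu : Fs u) {i : ℤ} (hi : Even i) : u i ∣ evp u := by
  classical
  rw [evp, finprod_eq_prod_of_mulSupport_subset (s := insert i hu.ev.toFinset) _ (by
    intro j hj
    simp only [Finset.coe_insert, Set.Finite.coe_toFinset]
    exact Set.mem_insert_of_mem _ hj)]
  have h1 := Finset.dvd_prod_of_mem (fun j : ℤ => if Even j then u j else 1)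
    (Finset.mem_insert_self i hu.ev.toFinset)
  simpa [hi] using h1

end Fin

end Pool.Agent.V1139.MT
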