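import Pool.Agent.V1139.MT.Braid

/-!
# Evenness: a realisation of an object some exterior power of which vanishes is even
-/

set_option autoImplicit false
set_option linter.unusedSectionVars false
set_option linter.unusedSimpArgs false
set_option backward.isDefEq.respectTransparency false
set_option backward.defeqAttrib.useBackward true

open CategoryTheory Limits MonoidalCategory Pretriangulated Triangulated TensorProduct

namespace Pool.Agent.V1139.MT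

open Pool.Agent.Y116.MT

universe v u w v' u'

open Functor.LaxMonoidal

section Pair

variable {C : Type u} [Category.{v} C] [MonoidalCategory C] [SymmetricCategory C]
  {D : Type u'} [Category.{v'} D] [MonoidalCategory D] [SymmetricCategory D]
  (H : C ⥤ D) [H.LaxBraided]

instance tensorLaxBraided : (tensor C).LaxBraided where
  toLaxMonoidal := inferInstance
  braided X Y := tensorμ_braiding X.1 X.2 Y.1 Y.2

variable (X X' Z W : C)

/-- The comparison map of tensor powers. -/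
noncomputable def kap2 : ∀ n : ℕ, pw (H.obj (X ⊗ X')) (H.obj (Z ⊗ W)) n ⟶
    H.obj (pw X Z n ⊗ pw X' W n)
  | 0 => 𝟙 _
  | n + 1 => (kap2 n ▷ H.obj (Z ⊗ W)) ≫ μ (tensor C ⋙ H) (pw X Z n, pw X' W n) (Z, W)

lemma mv_kap2 (n : ℕ) : ∀ i : Fin (n + 1),
    mv (H.obj (X ⊗ X')) (H.obj (Z ⊗ W)) n i ≫ kap2 H X X' Z W (n + 1) =
      kap2 H X X' Z W (n + 1) ≫ H.map (mv X Z n i ⊗ₘ mv X' W n i) := by
  induction n with
  | zero =>
    intro i
    simp [mv]
  | succ n ih =>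
    intro i
    refine Fin.lastCases ?_ (fun j => ?_) i
    · simp
    · rw [mv_castSucc, mv_castSucc, mv_castSucc]
      have h1 : kap2 H X X' Z W (n + 1 + 1) =
          (kap2 H X X' Z W n ▷ H.obj (Z ⊗ W) ▷ H.obj (Z ⊗ W)) ≫
          (μ (tensor C ⋙ H) (pw X Z n, pw X' W n) (Z, W) ▷ H.obj (Z ⊗ W)) ≫
            μ (tensor C ⋙ H) ((pw X Z n, pw X' W n) ⊗ (Z, W)) (Z, W) := by
        simp only [kap2, comp_whiskerRight, Category.assoc]
        rfl
      have h2 : (exch (pw (H.obj (X ⊗ X')) (H.obj (Z ⊗ W)) n) (H.obj (Z ⊗ W))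
          (H.obj (Z ⊗ W))).hom ≫
          kap2 H X X' Z W (n + 1 + 1) = kap2 H X X' Z W (n + 1 + 1) ≫
            H.map ((exch (pw X Z n) Z Z).hom ⊗ₘ (exch (pw X' W n) W W).hom) := by
        rw [h1, ← exch_natural_first_assoc]
        have h5 := exch_lax (tensor C ⋙ H) (Z, W) (pw X Z n, pw X' W n) (Z, W)
        have h6 : (tensor C ⋙ H).map (exch (pw X Z n, pw X' W n) (Z, W) (Z, W)).hom =
            H.map ((exch (pw X Z n) Z Z).hom ⊗ₘ (exch (pw X' W n) W W).hom) := rfl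
        rw [h6] at h5
        simp only [Category.assoc]
        exact congrArg (fun z => (kap2 H X X' Z W n ▷ H.obj (Z ⊗ W) ▷ H.obj (Z ⊗ W)) ≫ z) h5
      have h3 : (mv (H.obj (X ⊗ X')) (H.obj (Z ⊗ W)) n j ▷ H.obj (Z ⊗ W)) ≫
          kap2 H X X' Z W (n + 1 + 1) = kap2 H X X' Z W (n + 1 + 1) ≫
            H.map ((mv X Z n j ▷ Z) ⊗ₘ (mv X' W n j ▷ W)) := by
        have h4 : kap2 H X X' Z W (n + 1 + 1) =
          (kap2 H X X' Z W (n + 1) ▷ H.obj (Z ⊗ W)) ≫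
            μ (tensor C ⋙ H) (pw X Z (n + 1), pw X' W (n + 1)) (Z, W) := rfl
        have h7 := μ_natural_left (tensor C ⋙ H)
          ((mv X Z n j, mv X' W n j) : (pw X Z (n + 1), pw X' W (n + 1)) ⟶
            (pw X Z (n + 1), pw X' W (n + 1))) (Z, W)
        have h8 : (tensor C ⋙ H).map ((((mv X Z n j, mv X' W n j) : (pw X Z (n + 1), pw X' W (n + 1)) ⟶
            (pw X Z (n + 1), pw X' W (n + 1)))) ▷ (Z, W)) =
              H.map ((mv X Z n j ▷ Z) ⊗ₘ (mv X' W n j ▷ W)) := rfl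
        rw [h4, ← comp_whiskerRight_assoc, ih, comp_whiskerRight_assoc, Category.assoc]
        rw [h8] at h7
        erw [h7]
      rw [Category.assoc, h2, ← Category.assoc, h3, Category.assoc, ← Functor.map_comp,
        MonoidalCategory.tensorHom_comp_tensorHom]

end Pair

section Vec

variable {E : Type w} [Field E]

lemma tmul_ne_zero {V W : Type w} [AddCommGroup V] [Module E V] [AddCommGroup W] [Module E W]
    {a : V} {b : W} (ha : a ≠ 0) (hb : b ≠ 0) : a ⊗ₜ[E] b ≠ 0 := by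
  intro h
  have h1 : ∃ f : Module.Dual E V, f a ≠ 0 := by
    by_contra hc
    push Not at hc
    exact ha ((Module.forall_dual_apply_eq_zero_iff E a).1 hc)
  have h2 : ∃ f : Module.Dual E W, f b ≠ 0 := by
    by_contra hc
    push Not at hc
    exact hb ((Module.forall_dual_apply_eq_zero_iff E b).1 hc)
  obtain ⟨f, hf⟩ := h1
  obtain ⟨g, hg⟩ := h2
  have h3 := congrArg (TensorProduct.map f g) h
  rw [TensorProduct.map_tmul, map_zero] at h3
  have h4 := congrArg (TensorProduct.lid E E) h3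
  rw [TensorProduct.lid_tmul, map_zero, smul_eq_mul] at h4
  rcases mul_eq_zero.1 h4 with h5 | h5
  · exact hf h5
  · exact hg h5

lemma ten_ne_zero {A V : ModuleCat.{w} E} {x : A} {v : V} (hx : x ≠ 0) (hv : v ≠ 0) (n : ℕ) :
    ten A V x n (fun _ => v) ≠ 0 := by
  induction n with
  | zero => exact hx
  | succ n ih => exact tmul_ne_zero ih hv

variable {C : Type u} [Category.{v} C] [MonoidalCategory C] [SymmetricCategory C]
  [Preadditive C] [MonoidalPreadditive C]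
  (H : C ⥤ ModuleCat.{w} E) [H.LaxBraided] [H.Additive] (X X' Z W : C)

lemma alt_kap2 (hW : (β_ W W).hom = (-1 : ℤ) • 𝟙 _) (x : H.obj (X ⊗ X')) (v : H.obj (Z ⊗ W))
    (n : ℕ) :
    (H.map (alt X Z n ▷ pw X' W n)).hom ((kap2 H X X' Z W n).hom
      (ten (H.obj (X ⊗ X')) (H.obj (Z ⊗ W)) x n (fun _ => v))) =
      (n.factorial : ℤ) • (kap2 H X X' Z W n).hom
        (ten (H.obj (X ⊗ X')) (H.obj (Z ⊗ W)) x n (fun _ => v)) := by
  induction n with
  | zero => simp [alt]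
  | succ n ih =>
    obtain ⟨y, hy⟩ : ∃ y, y = (kap2 H X X' Z W (n + 1)).hom
        (ten (H.obj (X ⊗ X')) (H.obj (Z ⊗ W)) x (n + 1) (fun _ => v)) := ⟨_, rfl⟩
    have h1 : ∀ i : Fin (n + 1), (H.map (mv X Z n i ▷ pw X' W (n + 1))).hom y =
        ((-1 : ℤ) ^ (n + i.val)) • y := by
      intro i
      have h2 := mv_kap2 H X X' Z W n i
      rw [mv_sign X' W hW n i] at h2
      have h3 : (mv X Z n i ⊗ₘ ((-1 : ℤ) ^ (n + i.val)) • 𝟙 (pw X' W (n + 1))) =
          ((-1 : ℤ) ^ (n + i.val)) • (mv X Z n i ▷ pw X' W (n + 1)) := by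
        rw [MonoidalCategory.tensorHom_def, wl_zsmul, MonoidalCategory.whiskerLeft_id,
          Preadditive.comp_zsmul, Category.comp_id]
      rw [h3, Functor.map_zsmul, Preadditive.comp_zsmul] at h2
      have h4 := LinearMap.congr_fun (congrArg ModuleCat.Hom.hom h2)
        (ten (H.obj (X ⊗ X')) (H.obj (Z ⊗ W)) x (n + 1) (fun _ => v))
      have h5 : (mv (H.obj (X ⊗ X')) (H.obj (Z ⊗ W)) n i).hom
          (ten (H.obj (X ⊗ X')) (H.obj (Z ⊗ W)) x (n + 1) (fun _ => v)) =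
          ten (H.obj (X ⊗ X')) (H.obj (Z ⊗ W)) x (n + 1) (fun _ => v) :=
        mv_apply _ _ x n i (fun _ => v)
      have h6 : (kap2 H X X' Z W (n + 1)).hom (ten (H.obj (X ⊗ X')) (H.obj (Z ⊗ W)) x (n + 1)
          (fun _ => v)) = ((-1 : ℤ) ^ (n + i.val)) • (H.map (mv X Z n i ▷ pw X' W (n + 1))).hom
            ((kap2 H X X' Z W (n + 1)).hom (ten (H.obj (X ⊗ X')) (H.obj (Z ⊗ W)) x (n + 1)
              (fun _ => v))) := by
        refine Eq.trans ?_ (h4.trans ?_)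
        · change _ = (kap2 H X X' Z W (n + 1)).hom ((mv (H.obj (X ⊗ X')) (H.obj (Z ⊗ W)) n i).hom
            (ten (H.obj (X ⊗ X')) (H.obj (Z ⊗ W)) x (n + 1) (fun _ => v)))
          rw [h5]
        · rfl
      rw [← hy] at h6
      conv_rhs => rw [h6]
      rw [smul_smul, ← pow_add, Even.neg_one_pow ⟨n + i.val, rfl⟩, one_smul]
    have h7 : (H.map ((alt X Z n ▷ Z) ▷ pw X' W (n + 1))).hom y = (n.factorial : ℤ) • y := by
      have e1 := μ_natural_left (tensor C ⋙ H)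
          ((alt X Z n, 𝟙 (pw X' W n)) : (pw X Z n, pw X' W n) ⟶ (pw X Z n, pw X' W n)) (Z, W)
      have e2 : (tensor C ⋙ H).map (((alt X Z n, 𝟙 (pw X' W n)) :
          (pw X Z n, pw X' W n) ⟶ (pw X Z n, pw X' W n)) ▷ (Z, W)) =
            H.map ((alt X Z n ▷ Z) ▷ pw X' W (n + 1)) := by
        have e3 : (tensor C ⋙ H).map (((alt X Z n, 𝟙 (pw X' W n)) :
          (pw X Z n, pw X' W n) ⟶ (pw X Z n, pw X' W n)) ▷ (Z, W)) =
            H.map ((alt X Z n ▷ Z) ⊗ₘ (𝟙 (pw X' W n) ▷ W)) := rfl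
        rw [e3, id_whiskerRight, tensorHom_id]
      have e4 : (tensor C ⋙ H).map ((alt X Z n, 𝟙 (pw X' W n)) :
          (pw X Z n, pw X' W n) ⟶ (pw X Z n, pw X' W n)) = H.map (alt X Z n ▷ pw X' W n) := by
        have e3 : (tensor C ⋙ H).map ((alt X Z n, 𝟙 (pw X' W n)) :
          (pw X Z n, pw X' W n) ⟶ (pw X Z n, pw X' W n)) =
            H.map (alt X Z n ⊗ₘ 𝟙 (pw X' W n)) := rfl
        rw [e3, tensorHom_id]
      rw [e2, e4] at e1
      have e5 := LinearMap.congr_fun (congrArg ModuleCat.Hom.hom e1)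
        (((kap2 H X X' Z W n).hom
          (ten (H.obj (X ⊗ X')) (H.obj (Z ⊗ W)) x n (fun _ => v))) ⊗ₜ[E] v)
      have e6 : (μ (tensor C ⋙ H) (pw X Z n, pw X' W n) (Z, W)).hom
        ((((kap2 H X X' Z W n).hom
          (ten (H.obj (X ⊗ X')) (H.obj (Z ⊗ W)) x n (fun _ => v))) ⊗ₜ[E] v) :) = y := by
        rw [hy]
        rfl
      have e7 : (H.map ((alt X Z n ▷ Z) ▷ pw X' W (n + 1))).hom
          ((μ (tensor C ⋙ H) (pw X Z n, pw X' W n) (Z, W)).hom
        ((((kap2 H X X' Z W n).hom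
          (ten (H.obj (X ⊗ X')) (H.obj (Z ⊗ W)) x n (fun _ => v))) ⊗ₜ[E] v) :)) =
          (μ (tensor C ⋙ H) (pw X Z n, pw X' W n) (Z, W)).hom
            (((H.map (alt X Z n ▷ pw X' W n)).hom ((kap2 H X X' Z W n).hom
          (ten (H.obj (X ⊗ X')) (H.obj (Z ⊗ W)) x n (fun _ => v)))) ⊗ₜ[E] v) := e5.symm
      rw [e6, ih] at e7
      rw [e7, ← TensorProduct.smul_tmul', map_zsmul, e6]
    rw [← hy]
    have h8 : H.map (alt X Z (n + 1) ▷ pw X' W (n + 1)) = ∑ i : Fin (n + 1),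
        ((-1 : ℤ) ^ (n + i.val)) • (H.map (mv X Z n i ▷ pw X' W (n + 1)) ≫
          H.map ((alt X Z n ▷ Z) ▷ pw X' W (n + 1))) := by
      have h9 : alt X Z (n + 1) ▷ pw X' W (n + 1) = ∑ i : Fin (n + 1),
          ((-1 : ℤ) ^ (n + i.val)) • ((mv X Z n i ▷ pw X' W (n + 1)) ≫
            ((alt X Z n ▷ Z) ▷ pw X' W (n + 1))) := by
        simp only [alt]
        rw [show (∑ i : Fin (n + 1), ((-1 : ℤ) ^ (n + i.val)) • (mv X Z n i ≫ (alt X Z n ▷ Z))) ▷
          pw X' W (n + 1) = ∑ i : Fin (n + 1), (((-1 : ℤ) ^ (n + i.val)) •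
            (mv X Z n i ≫ (alt X Z n ▷ Z))) ▷ pw X' W (n + 1) from
          (tensorRight (pw X' W (n + 1))).map_sum _ _]
        refine Finset.sum_congr rfl (fun i _ => ?_)
        rw [wr_zsmul, comp_whiskerRight]
      rw [h9, Functor.map_sum]
      refine Finset.sum_congr rfl (fun i _ => ?_)
      rw [Functor.map_zsmul, Functor.map_comp]
    rw [h8, ModuleCat.hom_sum, LinearMap.sum_apply]
    have h10 : ∀ i ∈ (Finset.univ : Finset (Fin (n + 1))),
        (((-1 : ℤ) ^ (n + i.val)) • (H.map (mv X Z n i ▷ pw X' W (n + 1)) ≫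
          H.map ((alt X Z n ▷ Z) ▷ pw X' W (n + 1)))).hom y = (n.factorial : ℤ) • y := by
      intro i _
      have h11 : (((-1 : ℤ) ^ (n + i.val)) • (H.map (mv X Z n i ▷ pw X' W (n + 1)) ≫
          H.map ((alt X Z n ▷ Z) ▷ pw X' W (n + 1)))).hom y =
          ((-1 : ℤ) ^ (n + i.val)) • (H.map ((alt X Z n ▷ Z) ▷ pw X' W (n + 1))).hom
            ((H.map (mv X Z n i ▷ pw X' W (n + 1))).hom y) := rfl
      rw [h11, h1, map_zsmul, h7, smul_smul, smul_smul, ← pow_add,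
        Even.neg_one_pow ⟨n + i.val, rfl⟩, one_mul]
    rw [Finset.sum_congr rfl h10, Finset.sum_const, Finset.card_univ, Fintype.card_fin,
      ← natCast_zsmul, smul_smul, Nat.factorial_succ]
    push_cast
    rfl

end Vec

lemma toModule_lof {E : Type w} [Field E] {M : ℤ → Type w} [∀ i, AddCommGroup (M i)]
    [∀ i, Module E (M i)] {N : Type w} [AddCommGroup N] [Module E N] (f : ∀ i, M i →ₗ[E] N)
    (a : ℤ) : f a = (DirectSum.toModule E ℤ N f) ∘ₗ (DirectSum.lof E ℤ M a) := by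
  ext x
  simp

section Real

variable {C : Type u} [Category.{v} C] [Preadditive C] [HasZeroObject C] [HasShift C ℤ]
  [∀ n : ℤ, (shiftFunctor C n).Additive] [Pretriangulated C] [MonoidalCategory C]
  [SymmetricCategory C] [TensorTriangulated C] [MonoidalPreadditive C]
  {E : Type w} [Field E] (R : Realisation C E)

lemma mono_mu_of_iso {X X' Y Y' : C} (e : X ≅ X') (f : Y ≅ Y') (h : Mono (μ R.H X Y)) :
    Mono (μ R.H X' Y') := by
  have h1 : (R.H.map e.hom ⊗ₘ R.H.map f.hom) ≫ μ R.H X' Y' =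
      μ R.H X Y ≫ R.H.map (e.hom ⊗ₘ f.hom) := μ_natural R.H e.hom f.hom
  have h2 : μ R.H X' Y' = inv (R.H.map e.hom ⊗ₘ R.H.map f.hom) ≫
      μ R.H X Y ≫ R.H.map (e.hom ⊗ₘ f.hom) := by
    rw [← h1, IsIso.inv_hom_id_assoc]
  rw [h2]
  infer_instance

lemma mono_mu (X Y : C) : Mono (μ R.H X Y) := by
  have h1 : Mono (μ R.H (X⟦(0 : ℤ)⟧) (Y⟦(-0 : ℤ)⟧)) := by
    have h2 : Function.Injective
        (μ R.H (X⟦(0 : ℤ)⟧) (Y⟦(-0 : ℤ)⟧) ≫ R.H.map (shiftTensorIso X Y 0).hom).hom := by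
      have h3 := R.kunneth X Y
      have h4 : (μ R.H (X⟦(0 : ℤ)⟧) (Y⟦(-0 : ℤ)⟧) ≫ R.H.map (shiftTensorIso X Y 0).hom).hom =
          (kunnethMap R.H X Y) ∘ₗ (DirectSum.lof E ℤ
            (fun i : ℤ => (R.H.obj (X⟦i⟧) ⊗ R.H.obj (Y⟦-i⟧) : ModuleCat.{w} E)) 0) :=
        toModule_lof (M := fun i : ℤ => (R.H.obj (X⟦i⟧) ⊗ R.H.obj (Y⟦-i⟧) : ModuleCat.{w} E))
          (fun i : ℤ => (μ R.H (X⟦i⟧) (Y⟦-i⟧) ≫ R.H.map (shiftTensorIso X Y i).hom).hom) 0
      rw [h4]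
      exact h3.1.comp (DirectSum.of_injective (β := fun k : ℤ =>
        (R.H.obj (X⟦k⟧) ⊗ R.H.obj (Y⟦-k⟧) : ModuleCat.{w} E)) 0)
    have h5 : Mono (μ R.H (X⟦(0 : ℤ)⟧) (Y⟦(-0 : ℤ)⟧) ≫ R.H.map (shiftTensorIso X Y 0).hom) :=
      (ModuleCat.mono_iff_injective _).2 h2
    exact mono_of_mono _ (R.H.map (shiftTensorIso X Y 0).hom)
  exact mono_mu_of_iso R ((shiftFunctorZero C ℤ).app X)
    ((shiftFunctorZero' C (-0 : ℤ) (by simp)).app Y) h1

lemma kap2_injective (X X' Z W : C) (n : ℕ) :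
    Function.Injective (kap2 R.H X X' Z W n).hom := by
  induction n with
  | zero => exact fun a b h => h
  | succ n ih =>
    have h1 : Function.Injective ((kap2 R.H X X' Z W n) ▷ R.H.obj (Z ⊗ W)).hom :=
      Module.Flat.rTensor_preserves_injective_linearMap _ ih
    have h2 : Function.Injective (μ (tensor C ⋙ R.H) (pw X Z n, pw X' W n) (Z, W)).hom := by
      have h3 : μ (tensor C ⋙ R.H) (pw X Z n, pw X' W n) (Z, W) =
          μ R.H (pw X Z n ⊗ pw X' W n) (Z ⊗ W) ≫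
            R.H.map (tensorμ (pw X Z n) (pw X' W n) Z W) := rfl
      have h4 : IsIso (tensorμ (pw X Z n) (pw X' W n) Z W) :=
        ⟨tensorδ _ _ _ _, tensorμ_tensorδ _ _ _ _, tensorδ_tensorμ _ _ _ _⟩
      have h5 := mono_mu R (pw X Z n ⊗ pw X' W n) (Z ⊗ W)
      have h6 : Mono (μ (tensor C ⋙ R.H) (pw X Z n, pw X' W n) (Z, W)) := by
        rw [h3]
        exact mono_comp _ _
      exact (ModuleCat.mono_iff_injective _).1 h6
    have h7 : (kap2 R.H X X' Z W (n + 1)).hom =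
        (μ (tensor C ⋙ R.H) (pw X Z n, pw X' W n) (Z, W)).hom ∘ₗ
          ((kap2 R.H X X' Z W n) ▷ R.H.obj (Z ⊗ W)).hom := rfl
    rw [h7]
    exact h2.comp h1

theorem isZero_of_alt [CharZero E] {Z W : C} (hW : (β_ W W).hom = (-1 : ℤ) • 𝟙 _) {N : ℕ}
    (hN : alt (𝟙_ C) Z N = 0) : IsZero (R.H.obj (Z ⊗ W)) := by
  by_contra hc
  rw [ModuleCat.isZero_iff_subsingleton, not_subsingleton_iff_nontrivial] at hc
  obtain ⟨v, hv⟩ := exists_ne (0 : R.H.obj (Z ⊗ W))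
  have h1 : ¬ IsZero (R.H.obj (𝟙_ C ⊗ 𝟙_ C)) := fun h =>
    not_isZero_H_unit R (h.of_iso (R.H.mapIso (λ_ (𝟙_ C)).symm))
  rw [ModuleCat.isZero_iff_subsingleton, not_subsingleton_iff_nontrivial] at h1
  obtain ⟨x, hx⟩ := exists_ne (0 : R.H.obj (𝟙_ C ⊗ 𝟙_ C))
  have h2 := alt_kap2 R.H (𝟙_ C) (𝟙_ C) Z W hW x v N
  have h3 : alt (𝟙_ C) Z N ▷ pw (𝟙_ C) W N = 0 := by
    rw [hN]
    exact (tensorRight _).map_zero _ _
  rw [h3, Functor.map_zero] at h2
  have h4 : (N.factorial : ℤ) • (kap2 R.H (𝟙_ C) (𝟙_ C) Z W N).hom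
        (ten (R.H.obj (𝟙_ C ⊗ 𝟙_ C)) (R.H.obj (Z ⊗ W)) x N (fun _ => v)) = 0 := h2.symm
  rw [← Int.cast_smul_eq_zsmul E, smul_eq_zero] at h4
  rcases h4 with h4 | h4
  · exact Nat.factorial_ne_zero N (by exact_mod_cast h4)
  · exact ten_ne_zero hx hv N ((map_eq_zero_iff _ (kap2_injective R _ _ _ _ N)).1 h4)

/-- If an exterior power of `Z` vanishes, the odd cohomology of `Z` vanishes. -/
theorem isZero_odd [CharZero E] {Z : C} {N : ℕ} (hN : alt (𝟙_ C) Z N = 0) {i : ℤ} (hi : Odd i) :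
    IsZero (R.H.obj (Z⟦i⟧)) := by
  have h1 : (β_ ((𝟙_ C)⟦i⟧) ((𝟙_ C)⟦i⟧)).hom = (-1 : ℤ) • 𝟙 _ := by
    rw [sign_unit, Int.negOnePow_odd i hi]
    simp
  exact (isZero_of_alt R h1 hN).of_iso
    (R.H.mapIso (rShift Z (𝟙_ C) i ≪≫ (shiftFunctor C i).mapIso (ρ_ Z)).symm)

end Real

end Pool.Agent.V1139.MT
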