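import Pool.Agent.V1139.MT.Cp
import Pool.Agent.V1139.MT.Even

/-!
# Euler characteristics of characteristic polynomials
-/

set_option autoImplicit false
set_option linter.unusedSectionVars false
set_option linter.unusedSimpArgs false
set_option backward.isDefEq.respectTransparency false
set_option backward.defeqAttrib.useBackward true

open CategoryTheory Limits MonoidalCategory Pretriangulated Triangulated Polynomial

namespace Pool.Agent.V1139.MT

open Pool.Agent.Y116.MT

universe v u w w'

section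

variable {C : Type u} [Category.{v} C] [Preadditive C] [HasZeroObject C] [HasShift C ℤ]
  [∀ n : ℤ, (shiftFunctor C n).Additive] [Pretriangulated C] [MonoidalCategory C]
  [SymmetricCategory C] [TensorTriangulated C] {E : Type w} [Field E] 
  {R : Realisation C E} (F : R.H ⟶ R.H)

/-- The characteristic polynomial of the natural endomorphism `F` on `H^i(X)`. -/
noncomputable def cp (X : C) (i : ℤ) : E[X] := (F.app (X⟦i⟧)).hom.charpoly

lemma cp_eq_one {X : C} {i : ℤ} (h : IsZero (R.H.obj (X⟦i⟧))) : cp F X i = 1 := by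
  have h1 : Subsingleton (R.H.obj (X⟦i⟧)) := ModuleCat.subsingleton_of_isZero h
  have h2 : (cp F X i).Monic := LinearMap.charpoly_monic _
  have h3 : (cp F X i).natDegree = Module.finrank E (R.H.obj (X⟦i⟧)) :=
    LinearMap.charpoly_natDegree _
  have h4 : (cp F X i).natDegree = 0 := by
    rw [h3]
    exact Module.finrank_zero_of_subsingleton
  exact Polynomial.eq_one_of_monic_natDegree_zero h2 h4

lemma cp_ne_zero (X : C) (i : ℤ) : cp F X i ≠ 0 := (LinearMap.charpoly_monic _).ne_zero

lemma cp_fs (X : C) : Fs (cp F X) := by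
  obtain ⟨N, hN⟩ := R.bounded X
  exact ⟨N, fun i hi => cp_eq_one F (hN i hi)⟩

lemma nat_apply {X Y : C} (f : X ⟶ Y) (x : R.H.obj X) :
    (R.H.map f).hom ((F.app X).hom x) = (F.app Y).hom ((R.H.map f).hom x) :=
  (LinearMap.congr_fun (congrArg ModuleCat.Hom.hom (F.naturality f)) x).symm

/-- the characteristic polynomial is invariant under morphisms inducing isomorphisms -/
lemma cp_congr {X Y : C} (i j : ℤ) (g : X⟦i⟧ ⟶ Y⟦j⟧) (h : IsIso (R.H.map g)) :
    cp F X i = cp F Y j := by
  have h1 := LinearEquiv.charpoly_conj (asIso (R.H.map g)).toLinearEquiv (F.app (X⟦i⟧)).hom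
  rw [cp, cp, ← h1]
  congr 1
  apply LinearMap.ext
  intro y
  obtain ⟨x, rfl⟩ := (asIso (R.H.map g)).toLinearEquiv.surjective y
  rw [LinearEquiv.conj_apply_apply, LinearEquiv.symm_apply_apply]
  exact nat_apply F g x

section LES

variable {X Y Z : C} {f : X ⟶ Y} {g : Y ⟶ Z} {h : Z ⟶ X⟦(1 : ℤ)⟧}
  (hT : Triangle.mk f g h ∈ distTriang C)

include hT

lemma range_eq_ker (i : ℤ) : LinearMap.range (R.H.map (f⟦i⟧')).hom =
    LinearMap.ker (R.H.map (g⟦i⟧')).hom := by
  let _ := Functor.ShiftSequence.tautological R.H ℤ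
  exact (R.H.homologySequence_exact₂ _ hT i).moduleCat_range_eq_ker

/-- The connecting map. -/
noncomputable def dl (h : Z ⟶ X⟦(1 : ℤ)⟧) (i : ℤ) : Z⟦i⟧ ⟶ X⟦i + 1⟧ :=
  h⟦i⟧' ≫ (shiftFunctorAdd' C 1 i (i + 1) (by omega)).inv.app X

omit hT in
lemma dl_eq (i : ℤ) : letI := Functor.ShiftSequence.tautological R.H ℤ
    R.H.homologySequenceδ (Triangle.mk f g h) i (i + 1) rfl = R.H.map (dl h i) := by
  simp only [Functor.homologySequenceδ, Functor.shiftMap, Functor.ShiftSequence.tautological, dl,
    Functor.shift, Functor.shiftIso]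
  simp only [Iso.trans_hom, NatTrans.comp_app, Iso.symm_hom, Functor.isoWhiskerRight_hom,
    Functor.whiskerRight_app, Functor.associator_inv_app, Category.id_comp, Functor.map_comp]
  rfl

lemma range_eq_ker2 (i : ℤ) : LinearMap.range (R.H.map (g⟦i⟧')).hom =
    LinearMap.ker (R.H.map (dl h i)).hom := by
  have h1 := dl_eq (R := R) (f := f) (g := g) (h := h) i
  let _ := Functor.ShiftSequence.tautological R.H ℤ
  have h2 := (R.H.homologySequence_exact₃ _ hT i (i + 1) rfl).moduleCat_range_eq_ker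
  exact h2.trans (congrArg (fun u => LinearMap.ker (ModuleCat.Hom.hom u)) h1)

lemma range_eq_ker3 (i : ℤ) : LinearMap.range (R.H.map (dl h i)).hom =
    LinearMap.ker (R.H.map (f⟦i + 1⟧')).hom := by
  have h1 := dl_eq (R := R) (f := f) (g := g) (h := h) i
  let _ := Functor.ShiftSequence.tautological R.H ℤ
  have h2 := (R.H.homologySequence_exact₁ _ hT i (i + 1) rfl).moduleCat_range_eq_ker
  exact (congrArg (fun u => LinearMap.range (ModuleCat.Hom.hom u)) h1).symm.trans h2

/-- The Euler identity for the characteristic polynomials on a distinguished triangle. -/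
theorem cp_euler [Infinite E] : evp (cp F X) * evp (cp F Z) * odp (cp F Y) =
    odp (cp F X) * odp (cp F Z) * evp (cp F Y) := by
  let a : ℤ → E[X] := fun i =>
    cpr (F.app (Y⟦i⟧)).hom (LinearMap.range (R.H.map (f⟦i⟧')).hom)
  let b : ℤ → E[X] := fun i =>
    cpr (F.app (Z⟦i⟧)).hom (LinearMap.range (R.H.map (g⟦i⟧')).hom)
  let d : ℤ → E[X] := fun i =>
    cpr (F.app (X⟦i⟧)).hom (LinearMap.ker (R.H.map (f⟦i⟧')).hom)
  let c : ℤ → E[X] := fun i => d (i + 1)
  have hx : ∀ i, cp F X i = c (i - 1) * a i := by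
    intro i
    have h1 : c (i - 1) = d i := congrArg d (by omega)
    rw [h1]
    exact charpoly_ker_range _ (nat_apply F _)
  have hy : ∀ i, cp F Y i = a i * b i := by
    intro i
    have h1 := charpoly_ker_range (R.H.map (g⟦i⟧')).hom (nat_apply F (g⟦i⟧'))
    rw [← range_eq_ker hT] at h1
    exact h1
  have hz : ∀ i, cp F Z i = b i * c i := by
    intro i
    have h1 := charpoly_ker_range (R.H.map (dl h i)).hom (nat_apply F (dl h i))
    rw [← range_eq_ker2 hT, range_eq_ker3 hT] at h1
    exact h1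
  have h1 : ∀ {u v w : ℤ → E[X]}, (∀ i, u i = v i * w i) → Fs u → (∀ i, (v i).Monic) → 
      (∀ i, (w i).Monic) → Fs v ∧ Fs w := by
    intro u v w h ⟨N, hN⟩ hv hw
    constructor
    · refine ⟨N, fun i hi => (hv i).eq_one_of_isUnit ?_⟩
      exact IsUnit.of_mul_eq_one (w i) (by rw [← h, hN i hi])
    · refine ⟨N, fun i hi => (hw i).eq_one_of_isUnit ?_⟩
      exact IsUnit.of_mul_eq_one (v i) (by rw [mul_comm, ← h, hN i hi])
  have hm : ∀ {V : Type _} [AddCommGroup V] [Module E V] [FiniteDimensional E V]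
      (e : V →ₗ[E] V) (W : Submodule E V), (cpr e W).Monic := by
    intro V _ _ _ e W
    rw [cpr]
    split_ifs
    · exact LinearMap.charpoly_monic _
    · exact monic_one
  have h2 := h1 hy (cp_fs F Y) (fun i => hm _ _) (fun i => hm _ _)
  have h3 := h1 hz (cp_fs F Z) (fun i => hm _ _) (fun i => hm _ _)
  exact euler h2.1 h2.2 h3.2 hy hz hx

end LES

end

end Pool.Agent.V1139.MT
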