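import Pool.Agent.V1139.MT.Serre

/-!
# One realisation suffices
-/

set_option autoImplicit false
set_option linter.unusedSectionVars false
set_option linter.unusedSimpArgs false
set_option backward.isDefEq.respectTransparency false
set_option backward.defeqAttrib.useBackward true

open CategoryTheory Limits MonoidalCategory Pretriangulated Triangulated Polynomial

namespace Pool.Agent.V1139.MT

open Pool.Agent.Y116.MT

universe v u w

section

variable {C : Type u} [Category.{v} C] [Preadditive C] [HasZeroObject C] [HasShift C ℤ]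
  [∀ n : ℤ, (shiftFunctor C n).Additive] [Pretriangulated C] [MonoidalCategory C]
  [SymmetricCategory C] [TensorTriangulated C] {E : Type w} [Field E] [CharZero E]
  {E' : Type w} [Field E'] [CharZero E']

/-- Frobenius elements for a pair of realisations `R`, `R'` and a class `Chow` of objects: for
any finitely many objects of the class there are natural endomorphisms `F` of `H` and `F'` of
`H'` and a real `q > 1` such that for each `P` among these objects and all `i` the
characteristic polynomials of `F` on `H^i(P)` and of `F'` on `H'^i(P)` are the same polynomial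
with rational coefficients, and its complex roots have absolute value `q^(i/2)`. -/
def HasFrobenius (R : Realisation C E) (R' : Realisation C E') (Chow : C → Prop) : Prop :=
  ∀ L : List C, (∀ P ∈ L, Chow P) → ∃ (F : R.H ⟶ R.H) (F' : R'.H ⟶ R'.H) (q : ℝ), 1 < q ∧
    ∀ P ∈ L, ∃ p : ℤ → ℚ[X], ∀ i : ℤ,
      (F.app (P⟦i⟧)).hom.charpoly = (p i).map (algebraMap ℚ E) ∧
      (F'.app (P⟦i⟧)).hom.charpoly = (p i).map (algebraMap ℚ E') ∧
      ∀ z : ℂ, aeval z (p i) = 0 → ‖z‖ ^ 2 = q ^ i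

lemma coprime_of_norm {q : ℝ} (hq : 1 < q) {p p' : ℚ[X]} {i j : ℤ} (hij : i ≠ j)
    (h : ∀ z : ℂ, aeval z p = 0 → ‖z‖ ^ 2 = q ^ i)
    (h' : ∀ z : ℂ, aeval z p' = 0 → ‖z‖ ^ 2 = q ^ j) : IsCoprime p p' := by
  rw [Polynomial.isCoprime_iff_aeval_ne_zero_of_isAlgClosed ℚ ℂ]
  intro z
  by_contra hcon
  push Not at hcon
  have h1 := (h z hcon.1).symm.trans (h' z hcon.2)
  exact hij (zpow_right_injective₀ (by linarith) (by linarith [hq.ne']) h1)

end

section

variable {C : Type u} [Category.{v} C] [Preadditive C] [HasZeroObject C] [HasShift C ℤ]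
  [∀ n : ℤ, (shiftFunctor C n).Additive] [Pretriangulated C] [MonoidalCategory C]
  [SymmetricCategory C] [TensorTriangulated C] {E : Type w} [Field E] {R : Realisation C E}

lemma ex_iff {S S' : C ⥤ C} (τ : S ⟶ S') (hτ : ∀ X, IsIso (R.H.map (τ.app X))) {X Y Z : C}
    (f : X ⟶ Y) (g : Y ⟶ Z) :
    (LinearMap.ker (R.H.map (S.map g)).hom ≤ LinearMap.range (R.H.map (S.map f)).hom) ↔
    (LinearMap.ker (R.H.map (S'.map g)).hom ≤ LinearMap.range (R.H.map (S'.map f)).hom) := by
  have hb : ∀ X, Function.Bijective (R.H.map (τ.app X)).hom := fun X =>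
    ConcreteCategory.bijective_of_isIso (R.H.map (τ.app X))
  have hn : ∀ {X Y : C} (f : X ⟶ Y) (x : R.H.obj (S.obj X)),
      (R.H.map (τ.app Y)).hom ((R.H.map (S.map f)).hom x) =
      (R.H.map (S'.map f)).hom ((R.H.map (τ.app X)).hom x) := by
    intro X Y f x
    have h1 := congrArg (fun u => (R.H.map u).hom x) (τ.naturality f)
    simp only [Functor.map_comp] at h1
    exact h1
  constructor
  · intro h y' hy'
    obtain ⟨y, rfl⟩ := (hb Y).2 y'
    have h1 : (R.H.map (S.map g)).hom y = 0 := by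
      apply (hb Z).1
      rw [hn, map_zero]
      exact hy'
    obtain ⟨x, rfl⟩ := h h1
    exact ⟨_, (hn f x).symm⟩
  · intro h y hy
    have h1 : (R.H.map (S'.map g)).hom ((R.H.map (τ.app Y)).hom y) = 0 := by
      rw [← hn, LinearMap.mem_ker.1 hy, map_zero]
    obtain ⟨x', hx'⟩ := h h1
    obtain ⟨x, rfl⟩ := (hb X).2 x'
    refine ⟨x, (hb Y).1 ?_⟩
    rw [hn, hx']

end

section

variable {C : Type u} [Category.{v} C] [Preadditive C] [HasZeroObject C] [HasShift C ℤ]
  [∀ n : ℤ, (shiftFunctor C n).Additive] [Pretriangulated C] [MonoidalCategory C]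
  [SymmetricCategory C] [TensorTriangulated C] [MonoidalPreadditive C] [RightRigidCategory C]
  [IsTriangulated C] {E : Type w} [Field E] [CharZero E]
  {E' : Type w} [Field E'] [CharZero E']
  {R : Realisation C E} {R' : Realisation C E'} {t : TStructure C}

/-- All the pieces of all the shifts of `M` are good. -/
def PE (t : TStructure C) (R' : Realisation C E') (M : C) : Prop :=
  ∀ n k : ℤ, Gd R' k ((D t k).obj (M⟦n⟧))

lemma gd_iso {k : ℤ} {X Y : C} (e : X ≅ Y) (h : Gd R' k X) : Gd R' k Y := fun i hi =>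
  (h i hi).of_iso (R'.H.mapIso ((shiftFunctor C i).mapIso e.symm))

lemma gd_zero {k : ℤ} {X : C} (h : IsZero X) : Gd R' k X := fun i _ =>
  R'.H.map_isZero ((shiftFunctor C i).map_isZero h)

lemma D_zero (k : ℤ) {M : C} (h : IsZero M) : IsZero ((D t k).obj M) := (D t k).map_isZero h

lemma pe_zero {M : C} (h : IsZero M) : PE t R' M := fun n k =>
  gd_zero (D_zero k ((shiftFunctor C n).map_isZero h))

lemma pe_shift {M : C} (h : PE t R' M) (a : ℤ) : PE t R' (M⟦a⟧) := fun n k =>
  gd_iso ((D t k).mapIso ((shiftFunctorAdd' C a n (a + n) rfl).app M)) (h (a + n) k)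

variable (he : TExact t R) (ht : TensorCompat t) (hu : Hrt t (𝟙_ C))
  (hid : ∀ e : 𝟙_ C ⟶ 𝟙_ C, e ≫ e = e → e = 0 ∨ e = 𝟙 _)
  (hle : ∀ X : C, (∀ n : ℤ, t.le n X) → IsZero X)
  (hge : ∀ X : C, (∀ n : ℤ, t.ge n X) → IsZero X)

include he in
lemma ex_D {X Y Z : C} (f : X ⟶ Y) (g : Y ⟶ Z) (k : ℤ)
    (h : LinearMap.ker (R.H.map (g⟦k⟧')).hom ≤ LinearMap.range (R.H.map (f⟦k⟧')).hom) :
    LinearMap.ker (R.H.map (((D t k).map g)⟦k⟧')).hom ≤
      LinearMap.range (R.H.map (((D t k).map f)⟦k⟧')).hom := by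
  have h1 := (ex_iff (R := R) (Functor.whiskerRight (t.truncLTι (k + 1)) (shiftFunctor C k))
    (fun X => L_iso he k X) f g).2 h
  exact (ex_iff (R := R) (Functor.whiskerRight (Functor.whiskerLeft (t.truncLT (k + 1))
    (t.truncGEπ k)) (shiftFunctor C k)) (fun X => D_iso he k X) f g).1 h1

include he ht hu hid hle hge

lemma pe_mid {X Y Z : C} {f : X ⟶ Y} {g : Y ⟶ Z} {h : Z ⟶ X⟦(1 : ℤ)⟧}
    (hT : Triangle.mk f g h ∈ distTriang C) (hX : PE t R' X) (hZ : PE t R' Z) : PE t R' Y := by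
  intro n k
  have h1 : LinearMap.ker (R.H.map (g⟦n + k⟧')).hom ≤
      LinearMap.range (R.H.map (f⟦n + k⟧')).hom := (range_eq_ker hT (n + k)).ge
  have h2 := (ex_iff (R := R) (shiftFunctorAdd' C n k (n + k) rfl).hom
    (fun X => inferInstance) f g).1 h1
  have h3 := ex_D he (f⟦n⟧') (g⟦n⟧') k h2
  refine serre he ht hu hid hle hge ⟨D_isLE k _, D_isGE k _⟩ ⟨D_isLE k _, D_isGE k _⟩
    ⟨D_isLE k _, D_isGE k _⟩ ((D t k).map (f⟦n⟧')) ((D t k).map (g⟦n⟧')) ?_ h3 (hX n k) (hZ n k)
  rw [← Functor.map_comp, ← Functor.map_comp, comp12 hT, Functor.map_zero, Functor.map_zero]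

lemma pe_built {Q : C → Prop} (hQ : ∀ X, Q X → PE t R' X) {X : C} (h : Built Q X) :
    PE t R' X := by
  induction h with
  | of h => exact hQ _ h
  | zero h => exact pe_zero h
  | tri₁ hT _ _ h1 h2 =>
    exact pe_mid he ht hu hid hle hge (inv_rot_of_distTriang _ hT) (pe_shift h2 (-1)) h1
  | tri₂ hT _ _ h1 h2 => exact pe_mid he ht hu hid hle hge hT h1 h2
  | tri₃ hT _ _ h1 h2 => exact pe_mid he ht hu hid hle hge (rotD hT) h2 (pe_shift h1 1)

omit hu hid hle hge in
lemma tower {M : C} (h : PE t R' M) (i k0 : ℤ)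
    (h0 : IsZero (R'.H.obj (((t.truncLT k0).obj M)⟦i⟧))) (n : ℕ)
    (hi : ∀ k, k0 ≤ k → k < k0 + n → i ≠ k) :
    IsZero (R'.H.obj (((t.truncLT (k0 + n)).obj M)⟦i⟧)) := by
  induction n with
  | zero => simpa using h0
  | succ n ih =>
    have h1 := ih fun k hk hk' => hi k hk (by push_cast; omega)
    obtain ⟨f, g, hT⟩ := D_tri (t := t) (k0 + n) M
    have h2 : IsZero (R'.H.obj (((D t (k0 + n)).obj M)⟦i⟧)) := by
      have h3 := gd_iso ((D t (k0 + n)).mapIso ((shiftFunctorZero C ℤ).app M)) (h 0 (k0 + n))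
      exact h3 i (hi _ (by omega) (by push_cast; omega))
    have h4 := hz2 R'.H hT i h1 h2
    rw [show k0 + ((n + 1 : ℕ) : ℤ) = k0 + n + 1 by push_cast; ring]
    exact h4

/-- `R'` is t-exact. -/
theorem texact_of_pe (h : ∀ M : C, PE t R' M) : TExact t R' := by
  constructor
  · intro M hM i hi
    obtain ⟨N, hN1, hN2⟩ := bounded_of_H ht he hu hid hle hge M
    have hM1 : t.IsLE M 0 := ⟨hM⟩
    have h1 := t.isZero_truncLT_obj_of_isGE (-N) M
    have h2 := tower he ht (h M) i (-N)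
      (R'.H.map_isZero ((shiftFunctor C i).map_isZero h1)) (N + 1)
      (fun k _ hk' => by push_cast at hk'; omega)
    rw [show (-(N : ℤ)) + ((N + 1 : ℕ) : ℤ) = 0 + 1 by push_cast; ring] at h2
    have h3 := (t.isLE_iff_isIso_truncLTι_app 0 (0 + 1) rfl M).1 hM1
    exact h2.of_iso (R'.H.mapIso ((shiftFunctor C i).mapIso
      (asIso ((t.truncLTι (0 + 1)).app M)).symm))
  · intro M hM i hi
    obtain ⟨N, hN1, hN2⟩ := bounded_of_H ht he hu hid hle hge M
    have hM1 : t.IsGE M 0 := ⟨hM⟩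
    have h1 := t.isZero_truncLT_obj_of_isGE 0 M
    have h2 := tower he ht (h M) i 0
      (R'.H.map_isZero ((shiftFunctor C i).map_isZero h1)) (N + 1)
      (fun k hk _ => by omega)
    rw [show (0 : ℤ) + ((N + 1 : ℕ) : ℤ) = N + 1 by push_cast; ring] at h2
    have h3 := (t.isLE_iff_isIso_truncLTι_app N (N + 1) rfl M).1 hN1
    exact h2.of_iso (R'.H.mapIso ((shiftFunctor C i).mapIso
      (asIso ((t.truncLTι ((N : ℤ) + 1)).app M)).symm))

/-- Objects of the class are good. -/
theorem pe_chow {Chow : C → Prop} (hgen : ∀ X : C, Built Chow X)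
    (hF : HasFrobenius R R' Chow) {P : C} (hP : Chow P) : PE t R' P := by
  intro n k
  obtain ⟨N, hN⟩ := R.bounded (P⟦n⟧)
  have hlist : ∀ j : ℤ, ∃ L : List C, (∀ X ∈ L, Chow X) ∧
      Built (fun X => X ∈ L) (((D t j).obj (P⟦n⟧))⟦j⟧) := fun j => (hgen _).list
  choose L hL1 hL2 using hlist
  obtain ⟨F, F', q, hq, hFL⟩ := hF (P :: (Finset.Icc (-(N : ℤ)) N).toList.flatMap L) (by
    intro X hX
    rcases List.mem_cons.1 hX with rfl | hX
    · exact hP
    · obtain ⟨j, _, hj⟩ := List.mem_flatMap.1 hX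
      exact hL1 j X hj)
  have hcompat : ∀ X ∈ P :: (Finset.Icc (-(N : ℤ)) N).toList.flatMap L, Compat F F' X := by
    intro X hX
    obtain ⟨p, hp⟩ := hFL X hX
    exact compat_of F F' p (fun i => (hp i).1) (fun i => (hp i).2.1)
  obtain ⟨p, hp⟩ := hFL P (by simp)
  have hD : ∀ j, Compat F F' (((D t j).obj (P⟦n⟧))⟦j⟧) := by
    intro j
    by_cases hj : j ∈ Finset.Icc (-(N : ℤ)) N
    · refine compat_built F F' (fun X hX => hcompat X ?_) (hL2 j)
      refine List.mem_cons_of_mem _ (List.mem_flatMap.2 ⟨j, ?_, hX⟩)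
      simpa using hj
    · apply compat_zero
      apply (shiftFunctor C j).map_isZero
      apply heart_zero' ht he hu hid (D_isLE j _) (D_isGE j _)
      have h1 := D_iso he j (P⟦n⟧)
      have h2 := L_iso he j (P⟦n⟧)
      have h3 : IsZero (R.H.obj ((P⟦n⟧)⟦j⟧)) := hN j (by
        rw [Finset.mem_Icc] at hj
        omega)
      exact (h3.of_iso (@asIso _ _ _ _ _ h2)).of_iso (@asIso _ _ _ _ _ h1).symm
  intro i hi
  refine pieces F F' he ht hu hid hle hge (p := fun i => p (n + i)) ?_ ?_ ?_ hD hi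
  · intro i
    rw [cp_shift F P n i (n + i) rfl]
    exact (hp (n + i)).1
  · intro i
    rw [cp_shift F' P n i (n + i) rfl]
    exact (hp (n + i)).2.1
  · intro i j hij
    exact coprime_of_norm hq (by omega) (hp (n + i)).2.2 (hp (n + j)).2.2

/-- t-exactness of one realisation gives t-exactness of the other one. -/
theorem texact {Chow : C → Prop} (hgen : ∀ X : C, Built Chow X)
    (hF : HasFrobenius R R' Chow) : TExact t R' :=
  texact_of_pe he ht hu hid hle hge fun M =>
    pe_built he ht hu hid hle hge (fun P hP => pe_chow he ht hu hid hle hge hgen hF hP) (hgen M)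

end

end Pool.Agent.V1139.MT
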