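import Pool.Agent.V1139.MT.Weight

/-!
# The pieces of pure objects
-/

set_option autoImplicit false
set_option linter.unusedSectionVars false
set_option linter.unusedSimpArgs false
set_option backward.isDefEq.respectTransparency false
set_option backward.defeqAttrib.useBackward true

open CategoryTheory Limits MonoidalCategory Pretriangulated Triangulated Polynomial

namespace Pool.Agent.V1139.MT

open Pool.Agent.Y116.MT

universe v u w

section LA

variable {K : Type*} [Field K] {V V' V'' : Type*} [AddCommGroup V] [Module K V]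
  [AddCommGroup V'] [Module K V'] [AddCommGroup V''] [Module K V'']

lemma aeval_nat (g : V →ₗ[K] V') {e : V →ₗ[K] V} {e' : V' →ₗ[K] V'}
    (hc : ∀ x, g (e x) = e' (g x)) (p : K[X]) (x : V) :
    g (aeval e p x) = aeval e' p (g x) := by
  induction p using Polynomial.induction_on' generalizing x with
  | add p q hp hq => simp [hp, hq]
  | monomial n a =>
    simp only [aeval_monomial, Module.End.mul_apply, Module.algebraMap_end_apply, map_smul]
    congr 1
    induction n generalizing x with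
    | zero => simp
    | succ n ih => simp only [pow_succ, Module.End.mul_apply, ih, hc]

lemma inj_mid [FiniteDimensional K V] (f : V →ₗ[K] V') (g : V' →ₗ[K] V'') {e : V →ₗ[K] V}
    {e' : V' →ₗ[K] V'} {e'' : V'' →ₗ[K] V''} (h1 : ∀ x, f (e x) = e' (f x))
    (h2 : ∀ x, g (e' x) = e'' (g x)) (hfg : LinearMap.range f = LinearMap.ker g)
    (h3 : Function.Injective e) (h4 : Function.Injective e'') : Function.Injective e' := by
  rw [injective_iff_map_eq_zero]
  intro y hy
  have h5 : g y = 0 := by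
    apply h4
    rw [← h2, hy, map_zero, map_zero]
  have h6 : y ∈ LinearMap.range f := by rw [hfg]; exact h5
  obtain ⟨x, rfl⟩ := h6
  have h7 : ∀ z ∈ LinearMap.ker f, e z ∈ LinearMap.ker f := by
    intro z hz
    rw [LinearMap.mem_ker, h1, LinearMap.mem_ker.1 hz, map_zero]
  have h8 : Function.Injective (e.restrict h7) := by
    intro a b hab
    exact Subtype.ext (h3 (congrArg Subtype.val hab))
  have h9 := LinearMap.surjective_of_injective h8
  rw [← h1] at hy
  obtain ⟨z, hz⟩ := h9 ⟨e x, hy⟩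
  have h10 : (z : V) = x := h3 (congrArg Subtype.val hz)
  rw [← h10]
  exact z.2

end LA

section

variable {C : Type u} [Category.{v} C] [Preadditive C] [HasZeroObject C] [HasShift C ℤ]
  [∀ n : ℤ, (shiftFunctor C n).Additive] [Pretriangulated C] [MonoidalCategory C]
  [SymmetricCategory C] [TensorTriangulated C] {E : Type w} [Field E] [CharZero E]
  {R : Realisation C E} (F : R.H ⟶ R.H)

/-- The operator `p(F)` on `H(X)`. -/
noncomputable def op (p : ℚ[X]) (X : C) : R.H.obj X →ₗ[E] R.H.obj X :=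
  aeval (F.app X).hom (mp E p)

lemma op_nat (p : ℚ[X]) {X Y : C} (f : X ⟶ Y) (x : R.H.obj X) :
    (R.H.map f).hom (op F p X x) = op F p Y ((R.H.map f).hom x) :=
  aeval_nat _ (nat_apply F f) _ x

lemma op_kill {p : ℚ[X]} {X : C} {i : ℤ} (h : cp F X i ∣ mp E p) : op F p (X⟦i⟧) = 0 := by
  obtain ⟨q, hq⟩ := h
  rw [op, hq, map_mul, cp, LinearMap.aeval_self_charpoly, zero_mul]

lemma op_coprime {p q : ℚ[X]} (h : IsCoprime p q) {X : C} (hq : op F q X = 0) :
    Function.Injective (op F p X) := by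
  obtain ⟨a, b, hab⟩ := h
  rw [injective_iff_map_eq_zero]
  intro x hx
  have h1 : op F (a * p + b * q) X x = x := by
    rw [hab, op, mp, Polynomial.map_one, map_one]
    rfl
  have h2 : op F (a * p + b * q) X = op F a X * op F p X + op F b X * op F q X := by
    simp only [op, mp, Polynomial.map_add, Polynomial.map_mul, map_add, map_mul]
  rw [← h1, h2, hq]
  simp [hx]

lemma isZero_of_op {p : ℚ[X]} {X : C} (h1 : op F p X = 0) (h2 : Function.Injective (op F p X)) :
    IsZero (R.H.obj X) := by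
  have : Subsingleton (R.H.obj X) := ⟨fun a b => h2 (by rw [h1]; rfl)⟩
  exact ModuleCat.isZero_of_subsingleton _

lemma op_mono (p : ℚ[X]) {X Y : C} (f : X ⟶ Y) (hf : Mono (R.H.map f))
    (h : Function.Injective (op F p Y)) : Function.Injective (op F p X) := by
  have h0 := (ModuleCat.mono_iff_injective _).1 hf
  rw [injective_iff_map_eq_zero]
  intro x hx
  apply h0
  apply h
  have h1 := op_nat F p f x
  rw [hx] at h1
  rw [map_zero] at h1 ⊢
  rw [map_zero]
  exact h1.symm

section Tri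

variable {X Y Z : C} {f : X ⟶ Y} {g : Y ⟶ Z} {h : Z ⟶ X⟦(1 : ℤ)⟧}
  (hT : Triangle.mk f g h ∈ distTriang C) (p : ℚ[X])

include hT

lemma op2 (i : ℤ) (h1 : Function.Injective (op F p (X⟦i⟧)))
    (h2 : Function.Injective (op F p (Z⟦i⟧))) : Function.Injective (op F p (Y⟦i⟧)) :=
  inj_mid _ _ (op_nat F p (f⟦i⟧')) (op_nat F p (g⟦i⟧')) (range_eq_ker hT i) h1 h2

lemma op3 (i : ℤ) (h1 : Function.Injective (op F p (Y⟦i⟧)))
    (h2 : Function.Injective (op F p (X⟦i + 1⟧))) : Function.Injective (op F p (Z⟦i⟧)) :=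
  inj_mid _ _ (op_nat F p (g⟦i⟧')) (op_nat F p (dl h i)) (range_eq_ker2 hT i) h1 h2

lemma op1 (i : ℤ) (h1 : Function.Injective (op F p (Z⟦i - 1⟧)))
    (h2 : Function.Injective (op F p (Y⟦i⟧))) : Function.Injective (op F p (X⟦i⟧)) := by
  obtain ⟨j, rfl⟩ : ∃ j : ℤ, i = j + 1 := ⟨i - 1, by omega⟩
  rw [show j + 1 - 1 = j by omega] at h1
  exact inj_mid _ _ (op_nat F p (dl h j)) (op_nat F p (f⟦j + 1⟧')) (range_eq_ker3 hT j) h1 h2

end Tri

end

section

variable {C : Type u} [Category.{v} C] [Preadditive C] [HasZeroObject C] [HasShift C ℤ]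
  [∀ n : ℤ, (shiftFunctor C n).Additive] [Pretriangulated C] [MonoidalCategory C]
  [SymmetricCategory C] [TensorTriangulated C] [MonoidalPreadditive C] [RightRigidCategory C]
  [IsTriangulated C] {E : Type w} [Field E] [CharZero E]
  {E' : Type w} [Field E'] [CharZero E']
  {R : Realisation C E} {R' : Realisation C E'} (F : R.H ⟶ R.H) (F' : R'.H ⟶ R'.H)
  {t : TStructure C}

/-- The piece of degree `k` of `M`, in degree `k`. -/
noncomputable abbrev D (t : TStructure C) (k : ℤ) : C ⥤ C := t.truncGELT k (k + 1)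

lemma D_isLE (k : ℤ) (M : C) : t.IsLE ((D t k).obj M) k :=
  t.isLE_of_le _ (k + 1 - 1) k (by omega)

lemma D_isGE (k : ℤ) (M : C) : t.IsGE ((D t k).obj M) k := inferInstance

lemma D_hrt (k : ℤ) (M : C) : Hrt t (((D t k).obj M)⟦k⟧) :=
  ⟨@TStructure.isLE_shift _ _ _ _ _ _ _ t _ k k 0 (by omega) (D_isLE k M),
    @TStructure.isGE_shift _ _ _ _ _ _ _ t _ k k 0 (by omega) (D_isGE k M)⟩

lemma D_tri (k : ℤ) (M : C) : ∃ (f : (t.truncLT k).obj M ⟶ (t.truncLT (k + 1)).obj M)
    (h : (D t k).obj M ⟶ ((t.truncLT k).obj M)⟦(1 : ℤ)⟧),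
    Triangle.mk f ((t.truncGEπ k).app ((t.truncLT (k + 1)).obj M)) h ∈ distTriang C :=
  ⟨_, _, t.triangleLTLTGELT_distinguished k (k + 1) (by omega) M⟩

lemma L_tri (k : ℤ) (M : C) : ∃ (g : M ⟶ (t.truncGE k).obj M)
    (h : (t.truncGE k).obj M ⟶ ((t.truncLT k).obj M)⟦(1 : ℤ)⟧),
    Triangle.mk ((t.truncLTι k).app M) g h ∈ distTriang C :=
  ⟨_, _, t.triangleLTGE_distinguished k M⟩

variable (he : TExact t R)

include he

lemma L_iso (k : ℤ) (M : C) : IsIso (R.H.map (((t.truncLTι (k + 1)).app M)⟦k⟧')) := by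
  obtain ⟨g, h, hT⟩ := L_tri (t := t) (k + 1) M
  have h1 : t.IsGE ((t.truncGE (k + 1)).obj M) (k + 1) := inferInstance
  have := hmono1 R.H hT k (he.isGE h1 _ (by omega))
  have := hepi1 R.H hT k (he.isGE h1 _ (by omega))
  exact isIso_of_mono_of_epi _

lemma D_iso (k : ℤ) (M : C) :
    IsIso (R.H.map (((t.truncGEπ k).app ((t.truncLT (k + 1)).obj M))⟦k⟧')) := by
  obtain ⟨f, h, hT⟩ := D_tri (t := t) k M
  have h1 : t.IsLE ((t.truncLT k).obj M) (k - 1) := inferInstance
  have := hmono2 R.H hT k (he.isLE h1 _ (by omega))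
  have := hepi2 R.H hT k (he.isLE h1 _ (by omega))
  exact isIso_of_mono_of_epi _

omit he in
lemma cp_shift (X : C) (a b c : ℤ) (h : a + b = c) : cp F (X⟦a⟧) b = cp F X c := by
  have h1 : IsIso (R.H.map (((shiftFunctorAdd' C a b c h).app X).inv)) := inferInstance
  exact cp_congr F b c ((shiftFunctorAdd' C a b c h).app X).inv h1

lemma cp_D (k : ℤ) (M : C) : cp F (((D t k).obj M)⟦k⟧) 0 = cp F M k := by
  rw [cp_shift F _ k 0 k (by omega)]
  exact (cp_congr F k k _ (D_iso he k M)).symm.trans (cp_congr F k k _ (L_iso he k M))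

variable (ht : TensorCompat t) (hu : Hrt t (𝟙_ C))
  (hid : ∀ e : 𝟙_ C ⟶ 𝟙_ C, e ≫ e = e → e = 0 ∨ e = 𝟙 _)

include ht hu hid

/-- Evenness. -/
lemma even_heart {Z : C} (hZ : Hrt t Z) {i : ℤ} (hi : Odd i) : IsZero (R'.H.obj (Z⟦i⟧)) := by
  obtain ⟨n, hn⟩ := alt_heart_zero ht he hu hid hZ
  exact isZero_odd R' hn hi

lemma D_kill {M : C} {k : ℤ} {p : ℚ[X]} (hp : cp F M k = mp E p)
    (hC : Compat F F' (((D t k).obj M)⟦k⟧)) (i : ℤ) : op F' p (((D t k).obj M)⟦i⟧) = 0 := by
  apply op_kill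
  rw [← cp_shift F' _ k (i - k) i (by omega)]
  exact compat_heart F F' hC (fun j hj => he.deg (D_hrt k M) j hj)
    (fun j hj => even_heart he ht hu hid (D_hrt k M) hj) (by rw [cp_D F he, hp]) _

variable (hle : ∀ X : C, (∀ n : ℤ, t.le n X) → IsZero X)
  (hge : ∀ X : C, (∀ n : ℤ, t.ge n X) → IsZero X)

include hle hge

/-- The pieces of a pure object are in one degree for the other realisation. -/
theorem pieces {M : C} {p : ℤ → ℚ[X]} (hp : ∀ i, cp F M i = mp E (p i))
    (hp' : ∀ i, cp F' M i = mp E' (p i)) (hco : ∀ i j, i ≠ j → IsCoprime (p i) (p j))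
    (hC : ∀ k, Compat F F' (((D t k).obj M)⟦k⟧)) {j i : ℤ} (hi : i ≠ j) :
    IsZero (R'.H.obj (((D t j).obj M)⟦i⟧)) := by
  obtain ⟨N0, hN1, hN2⟩ := bounded_of_H ht he hu hid hle hge M
  obtain ⟨N, hN⟩ : ∃ N : ℕ, N = N0 + j.natAbs := ⟨_, rfl⟩
  have hM1 : t.IsLE M N := t.isLE_of_le _ (N0 : ℤ) N (by omega)
  have hM2 : t.IsGE M (-N) := t.isGE_of_ge _ (-N) (-N0 : ℤ) (by omega)
  have hinj : ∀ k, k ≠ j → ∀ i, Function.Injective (op F' (p j) (((D t k).obj M)⟦i⟧)) :=
    fun k hk i => op_coprime F' (hco j k (Ne.symm hk)) (D_kill F F' he ht hu hid (hp k) (hC k) i)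
  have hup : ∀ n : ℕ, ∀ k : ℤ, k = -N + n → k ≤ j → ∀ i : ℤ,
      Function.Injective (op F' (p j) (((t.truncLT k).obj M)⟦i⟧)) := by
    intro n
    induction n with
    | zero =>
      intro k hk _ i
      have hk' : k = -N := by simpa using hk
      subst hk'
      have h1 := t.isZero_truncLT_obj_of_isGE (-N) M
      have h2 : IsZero (R'.H.obj (((t.truncLT (-(N : ℤ))).obj M)⟦i⟧)) :=
        R'.H.map_isZero ((shiftFunctor C i).map_isZero h1)
      have h3 := ModuleCat.subsingleton_of_isZero h2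
      exact Function.injective_of_subsingleton _
    | succ n ih =>
      intro k hk hkj i
      obtain ⟨k, rfl⟩ : ∃ k', k = k' + 1 := ⟨k - 1, by omega⟩
      obtain ⟨f, h, hT⟩ := D_tri (t := t) k M
      exact op2 F' hT (p j) i (ih k (by push_cast at hk; omega) (by omega) i)
        (hinj k (by omega) i)
  have hdown : ∀ n : ℕ, ∀ k : ℤ, k = N + 1 - n → j < k → ∀ i : ℤ, i ≠ j →
      Function.Injective (op F' (p j) (((t.truncLT k).obj M)⟦i⟧)) := by
    intro n
    induction n with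
    | zero =>
      intro k hk _ i hi
      have hk' : k = N + 1 := by simpa using hk
      subst hk'
      have h1 := (t.isLE_iff_isIso_truncLTι_app N (N + 1) rfl M).1 hM1
      have h2 : IsIso (R'.H.map (((t.truncLTι ((N : ℤ) + 1)).app M)⟦i⟧')) := inferInstance
      have h3 : op F' (p i) (M⟦i⟧) = 0 := op_kill F' (by rw [hp' i])
      exact op_mono F' (p j) (((t.truncLTι ((N : ℤ) + 1)).app M)⟦i⟧') inferInstance
        (op_coprime F' (hco j i (Ne.symm hi)) h3)
    | succ n ih =>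
      intro k hk hkj i hi
      obtain ⟨f, h, hT⟩ := D_tri (t := t) k M
      exact op1 F' hT (p j) i (hinj k (by omega) (i - 1))
        (ih (k + 1) (by push_cast at hk; omega) (by omega) i hi)
  obtain ⟨f, h, hT⟩ := D_tri (t := t) j M
  exact isZero_of_op F' (D_kill F F' he ht hu hid (hp j) (hC j) i)
    (op3 F' hT (p j) i (hdown (N - j).toNat (j + 1) (by omega) (by omega) i hi)
      (hup (j + N).toNat j (by omega) le_rfl (i + 1)))

end

end Pool.Agent.V1139.MT
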