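import Pool.Agent.V1139.MT.Pure

/-!
# A Serre property
-/

set_option autoImplicit false
set_option linter.unusedSectionVars false
set_option linter.unusedSimpArgs false
set_option backward.isDefEq.respectTransparency false
set_option backward.defeqAttrib.useBackward true

open CategoryTheory Limits MonoidalCategory Pretriangulated Triangulated Polynomial

namespace Pool.Agent.V1139.MT

open Pool.Agent.Y116.MT

universe v u w

section

variable {C : Type u} [Category.{v} C] [Preadditive C] [HasZeroObject C] [HasShift C ℤ]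
  [∀ n : ℤ, (shiftFunctor C n).Additive] [Pretriangulated C] [MonoidalCategory C]
  [SymmetricCategory C] [TensorTriangulated C] {E : Type w} [Field E]
  {R : Realisation C E}
  {X Y Z : C} {f : X ⟶ Y} {g : Y ⟶ Z} {h : Z ⟶ X⟦(1 : ℤ)⟧}
  (hT : Triangle.mk f g h ∈ distTriang C)

include hT

lemma hz3' (i : ℤ) (h1 : IsZero (R.H.obj (Y⟦i⟧)))
    (h2 : Function.Injective (R.H.map (f⟦i + 1⟧')).hom) : IsZero (R.H.obj (Z⟦i⟧)) := by
  have h3 := range_eq_ker2 hT (R := R) i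
  have h4 := range_eq_ker3 hT (R := R) i
  rw [LinearMap.ker_eq_bot.2 h2, LinearMap.range_eq_bot] at h4
  have h5 := ModuleCat.subsingleton_of_isZero h1
  have : Subsingleton (R.H.obj (Z⟦i⟧)) := by
    refine subsingleton_of_forall_eq 0 fun z => ?_
    have h6 : z ∈ LinearMap.ker (R.H.map (dl h i)).hom := by
      rw [LinearMap.mem_ker, h4]
      rfl
    rw [← h3] at h6
    obtain ⟨y, hy⟩ := h6
    rw [← hy, Subsingleton.elim y 0, map_zero]
  exact ModuleCat.isZero_of_subsingleton _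

lemma hz1' (i : ℤ) (h1 : IsZero (R.H.obj (Y⟦i + 1⟧)))
    (h2 : Function.Surjective (R.H.map (g⟦i⟧')).hom) : IsZero (R.H.obj (X⟦i + 1⟧)) := by
  have h3 := range_eq_ker2 hT (R := R) i
  have h4 := range_eq_ker3 hT (R := R) i
  rw [LinearMap.range_eq_top.2 h2] at h3
  have h5 := ModuleCat.subsingleton_of_isZero h1
  have h7 := LinearMap.ker_eq_top.1 h3.symm
  have : Subsingleton (R.H.obj (X⟦i + 1⟧)) := by
    refine subsingleton_of_forall_eq 0 fun z => ?_
    have h6 : z ∈ LinearMap.ker (R.H.map (f⟦i + 1⟧')).hom := Subsingleton.elim _ _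
    rw [← h4] at h6
    obtain ⟨y, hy⟩ := h6
    rw [← hy, h7]
    rfl
  exact ModuleCat.isZero_of_subsingleton _

end

section

variable {C : Type u} [Category.{v} C] [Preadditive C] [HasZeroObject C] [HasShift C ℤ]
  [∀ n : ℤ, (shiftFunctor C n).Additive] [Pretriangulated C] [MonoidalCategory C]
  [SymmetricCategory C] [TensorTriangulated C] [MonoidalPreadditive C] [RightRigidCategory C]
  [IsTriangulated C] {E : Type w} [Field E] [CharZero E]
  {E' : Type w} [Field E'] [CharZero E']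
  {R : Realisation C E} {R' : Realisation C E'} {t : TStructure C}

/-- objects in degree `k` for the t-structure -/
def Dg (t : TStructure C) (k : ℤ) (X : C) : Prop := t.IsLE X k ∧ t.IsGE X k

/-- the cohomology `R'` is in degree `k` -/
def Gd (R' : Realisation C E') (k : ℤ) (X : C) : Prop :=
  ∀ i : ℤ, i ≠ k → IsZero (R'.H.obj (X⟦i⟧))

variable (he : TExact t R) (ht : TensorCompat t) (hu : Hrt t (𝟙_ C))
  (hid : ∀ e : 𝟙_ C ⟶ 𝟙_ C, e ≫ e = e → e = 0 ∨ e = 𝟙 _)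

include he ht hu hid

lemma even_dg {k : ℤ} {Z : C} (hZ : Dg t k Z) {i : ℤ} (hi : Odd (i - k)) :
    IsZero (R'.H.obj (Z⟦i⟧)) := by
  have h1 : Hrt t (Z⟦k⟧) :=
    ⟨@TStructure.isLE_shift _ _ _ _ _ _ _ t _ k k 0 (by omega) hZ.1,
      @TStructure.isGE_shift _ _ _ _ _ _ _ t _ k k 0 (by omega) hZ.2⟩
  have h2 := even_heart (R' := R') he ht hu hid h1 hi
  exact h2.of_iso (R'.H.mapIso ((shiftFunctorAdd' C k (i - k) i (by omega)).app Z))

section Tri

variable {X Y Z : C} {f : X ⟶ Y} {g : Y ⟶ Z} {h : Z ⟶ X⟦(1 : ℤ)⟧}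
  (hT : Triangle.mk f g h ∈ distTriang C) {k : ℤ}

include hT

lemma gd_sub (hZ : Dg t k Z) (hX : Dg t k X) (hY : Gd R' k Y) : Gd R' k X := by
  intro i hi
  by_cases h1 : Odd (i - k)
  · exact even_dg he ht hu hid hX h1
  · refine hz1 R'.H hT i (hY i hi) (even_dg he ht hu hid hZ ?_)
    rw [Int.not_odd_iff_even] at h1
    obtain ⟨a, ha⟩ := h1
    exact ⟨a - 1, by omega⟩

lemma gd_quot (hZ : Dg t k Z) (hX : Dg t k X) (hY : Gd R' k Y) : Gd R' k Z := by
  intro i hi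
  by_cases h1 : Odd (i - k)
  · exact even_dg he ht hu hid hZ h1
  · refine hz3 R'.H hT i (hY i hi) (even_dg he ht hu hid hX ?_)
    rw [Int.not_odd_iff_even] at h1
    obtain ⟨a, ha⟩ := h1
    exact ⟨a, by omega⟩

end Tri

variable (hle : ∀ X : C, (∀ n : ℤ, t.le n X) → IsZero X)
  (hge : ∀ X : C, (∀ n : ℤ, t.ge n X) → IsZero X)

include hle hge

lemma dg_cone {X Y Z : C} {f : X ⟶ Y} {g : Y ⟶ Z} {h : Z ⟶ X⟦(1 : ℤ)⟧}
    (hT : Triangle.mk f g h ∈ distTriang C) {k : ℤ} (hX : Dg t k X) (hY : Dg t k Y)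
    (hf : Function.Injective (R.H.map (f⟦k⟧')).hom) : Dg t k Z := by
  have h0 : t.IsLE X k := hX.1
  refine ⟨isLE3 hT (t.isLE_of_le X k (k + 1) (by omega)) hY.1,
    isGE_of_H ht he hu hid hle hge fun i hi => ?_⟩
  by_cases h1 : i + 1 = k
  · subst h1
    exact hz3' hT i (he.isGE hY.2 i (by omega)) hf
  · exact hz3 R.H hT i (he.isGE hY.2 i hi) (he.isGE hX.2 (i + 1) (by omega))

lemma dg_fib {X Y Z : C} {f : X ⟶ Y} {g : Y ⟶ Z} {h : Z ⟶ X⟦(1 : ℤ)⟧}
    (hT : Triangle.mk f g h ∈ distTriang C) {k : ℤ} (hY : Dg t k Y) (hZ : Dg t k Z)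
    (hg : Function.Surjective (R.H.map (g⟦k⟧')).hom) : Dg t k X := by
  have h0 : t.IsGE Z k := hZ.2
  refine ⟨isLE_of_H ht he hu hid hle hge fun i hi => ?_,
    isGE1 hT hY.2 (t.isGE_of_ge Z (k - 1) k (by omega))⟩
  by_cases h1 : i = k + 1
  · subst h1
    exact hz1' hT k (he.isLE hY.1 _ (by omega)) hg
  · exact hz1 R.H hT i (he.isLE hY.1 _ (by omega)) (he.isLE hZ.1 _ (by omega))

/-- The Serre property. -/
theorem serre {A B D : C} {k : ℤ} (hA : Dg t k A) (hB : Dg t k B) (hD : Dg t k D)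
    (f : A ⟶ B) (g : B ⟶ D) (hfg : f ≫ g = 0)
    (hex : LinearMap.ker (R.H.map (g⟦k⟧')).hom ≤ LinearMap.range (R.H.map (f⟦k⟧')).hom)
    (hA' : Gd R' k A) (hD' : Gd R' k D) : Gd R' k B := by
  obtain ⟨K, π, δ, hT⟩ := distinguished_cocone_triangle f
  obtain ⟨g', hg'⟩ := ye2 hT g hfg
  have hA1 : t.IsLE A k := hA.1
  have hD1 : t.IsGE D k := hD.2
  have hK : t.IsLE K k := isLE3 hT (t.isLE_of_le A k (k + 1) (by omega)) hB.1
  obtain ⟨Q, hQ⟩ : ∃ Q, Q = (t.truncGE k).obj K := ⟨_, rfl⟩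
  have hT2 := t.triangleLTGE_distinguished k K
  let q : K ⟶ (t.truncGE k).obj K := (t.truncGEπ k).app K
  have hT3 : Triangle.mk ((t.truncLTι k).app K) q ((t.truncGEδLT k).app K) ∈ distTriang C := hT2
  have hQd : Dg t k ((t.truncGE k).obj K) := ⟨inferInstance, inferInstance⟩
  have hK1 : t.IsLE ((t.truncLT k).obj K) (k - 1) := inferInstance
  have hq1 : Function.Injective (R.H.map (q⟦k⟧')).hom :=
    (ModuleCat.mono_iff_injective _).1 (hmono2 R.H hT3 k (he.isLE hK1 _ (by omega)))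
  have hq2 : Function.Surjective (R.H.map (q⟦k⟧')).hom :=
    (ModuleCat.epi_iff_surjective _).1 (hepi2 R.H hT3 k (he.isLE hK1 _ (by omega)))
  have hπ : Function.Surjective (R.H.map (π⟦k⟧')).hom :=
    (ModuleCat.epi_iff_surjective _).1 (hepi2 R.H hT k (he.isLE hA.1 _ (by omega)))
  obtain ⟨g'', hg''⟩ : ∃ g'' : (t.truncGE k).obj K ⟶ D, g' = q ≫ g'' :=
    ⟨t.descTruncGE g' k, (t.π_descTruncGE g' k).symm⟩
  have hmap : ∀ {X Y Z : C} (a : X ⟶ Y) (b : Y ⟶ Z) (x : R.H.obj (X⟦k⟧)),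
      (R.H.map ((a ≫ b)⟦k⟧')).hom x = (R.H.map (b⟦k⟧')).hom ((R.H.map (a⟦k⟧')).hom x) := by
    intro X Y Z a b x
    rw [Functor.map_comp, Functor.map_comp]
    rfl
  have hmap0 : ∀ {X Y : C} (x : R.H.obj (X⟦k⟧)), (R.H.map ((0 : X ⟶ Y)⟦k⟧')).hom x = 0 := by
    intro X Y x
    rw [Functor.map_zero, Functor.map_zero]
    rfl
  -- the map from the cokernel is injective
  have h1 : Function.Injective (R.H.map (g''⟦k⟧')).hom := by
    rw [injective_iff_map_eq_zero]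
    intro y hy
    obtain ⟨x, rfl⟩ := hq2 y
    obtain ⟨b, rfl⟩ := hπ x
    rw [← hmap, ← hg'', ← hmap, ← hg'] at hy
    obtain ⟨a, ha⟩ := hex (LinearMap.mem_ker.2 hy)
    rw [← ha, ← hmap π q, ← hmap f, ← Category.assoc, comp12 hT, Limits.zero_comp, hmap0]
  obtain ⟨W, w, δ', hTW⟩ := distinguished_cocone_triangle g''
  have hW := dg_cone he ht hu hid hle hge hTW hQd hD h1
  have hQg := gd_sub he ht hu hid hTW hW hQd hD'
  -- the image
  obtain ⟨I, j, δ'', hTI⟩ := distinguished_cocone_triangle₁ (π ≫ q)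
  have h2 : Function.Surjective (R.H.map ((π ≫ q)⟦k⟧')).hom := by
    intro y
    obtain ⟨x, rfl⟩ := hq2 y
    obtain ⟨b, rfl⟩ := hπ x
    exact ⟨b, hmap _ _ _⟩
  have hI := dg_fib he ht hu hid hle hge hTI hB hQd h2
  have hj : Function.Injective (R.H.map (j⟦k⟧')).hom :=
    (ModuleCat.mono_iff_injective _).1 (hmono1 R.H hTI k (he.isGE hQd.2 _ (by omega)))
  obtain ⟨f', hf'⟩ := ce2 hTI f (by rw [← Category.assoc, comp12 hT, Limits.zero_comp])
  have h3 : Function.Surjective (R.H.map (f'⟦k⟧')).hom := by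
    intro x
    have h4 : (R.H.map (π⟦k⟧')).hom ((R.H.map (j⟦k⟧')).hom x) = 0 := by
      apply hq1
      rw [map_zero, ← hmap π q, ← hmap, comp12 hTI, hmap0]
    have h5 := range_eq_ker hT (R := R) k
    have h6 : (R.H.map (j⟦k⟧')).hom x ∈ LinearMap.range (R.H.map (f⟦k⟧')).hom := by
      rw [h5]
      exact h4
    obtain ⟨a, ha⟩ := h6
    refine ⟨a, hj ?_⟩
    rw [← hmap, ← hf', ha]
  obtain ⟨V, v, δ₃, hTV⟩ := distinguished_cocone_triangle₁ f'
  have hV := dg_fib he ht hu hid hle hge hTV hA hI h3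
  have hIg := gd_quot he ht hu hid hTV hI hV hA'
  exact fun i hi => hz2 R'.H hTI i (hIg i hi) (hQg i hi)

end

end Pool.Agent.V1139.MT
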