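import Pool.Agent.V1139.MT.Euler

/-!
# Objects built from given ones, and compatible characteristic polynomials
-/

set_option autoImplicit false
set_option linter.unusedSectionVars false
set_option linter.unusedSimpArgs false
set_option backward.isDefEq.respectTransparency false
set_option backward.defeqAttrib.useBackward true

open CategoryTheory Limits MonoidalCategory Pretriangulated Triangulated Polynomial

namespace Pool.Agent.V1139.MT

open Pool.Agent.Y116.MT

universe v u w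

section Built

variable {C : Type u} [Category.{v} C] [Preadditive C] [HasZeroObject C] [HasShift C ℤ]
  [∀ n : ℤ, (shiftFunctor C n).Additive] [Pretriangulated C]

/-- The objects obtained from the objects satisfying `Q` and the zero objects by completing
distinguished triangles: if two vertices of a distinguished triangle are built, so is the third.
(These are the objects of the triangulated subcategory generated by `Q`.) -/
inductive Built (Q : C → Prop) : C → Prop
  | of {X : C} : Q X → Built Q X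
  | zero {X : C} : IsZero X → Built Q X
  | tri₁ {X Y Z : C} {f : X ⟶ Y} {g : Y ⟶ Z} {h : Z ⟶ X⟦(1 : ℤ)⟧} :
      Triangle.mk f g h ∈ distTriang C → Built Q Y → Built Q Z → Built Q X
  | tri₂ {X Y Z : C} {f : X ⟶ Y} {g : Y ⟶ Z} {h : Z ⟶ X⟦(1 : ℤ)⟧} :
      Triangle.mk f g h ∈ distTriang C → Built Q X → Built Q Z → Built Q Y
  | tri₃ {X Y Z : C} {f : X ⟶ Y} {g : Y ⟶ Z} {h : Z ⟶ X⟦(1 : ℤ)⟧} :
      Triangle.mk f g h ∈ distTriang C → Built Q X → Built Q Y → Built Q Z

lemma Built.mono {Q Q' : C → Prop} (hQ : ∀ X, Q X → Q' X) {X : C} (h : Built Q X) :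
    Built Q' X := by
  induction h with
  | of h => exact .of (hQ _ h)
  | zero h => exact .zero h
  | tri₁ hT _ _ h1 h2 => exact .tri₁ hT h1 h2
  | tri₂ hT _ _ h1 h2 => exact .tri₂ hT h1 h2
  | tri₃ hT _ _ h1 h2 => exact .tri₃ hT h1 h2

lemma Built.list {Q : C → Prop} {X : C} (h : Built Q X) :
    ∃ L : List C, (∀ P ∈ L, Q P) ∧ Built (fun P => P ∈ L) X := by
  have key : ∀ {L1 L2 : List C}, (∀ P ∈ L1, Q P) → (∀ P ∈ L2, Q P) → ∀ P ∈ L1 ++ L2, Q P := by
    intro L1 L2 h1 h2 P hP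
    rcases List.mem_append.1 hP with h | h
    · exact h1 P h
    · exact h2 P h
  induction h with
  | @of X h => exact ⟨List.cons X [], by simpa using h, .of (by simp)⟩
  | zero h => exact ⟨[], by simp, .zero h⟩
  | tri₁ hT _ _ h1 h2 =>
    obtain ⟨L1, a1, b1⟩ := h1
    obtain ⟨L2, a2, b2⟩ := h2
    exact ⟨L1 ++ L2, key a1 a2, .tri₁ hT (b1.mono fun P hP => List.mem_append_left _ hP)
      (b2.mono fun P hP => List.mem_append_right _ hP)⟩
  | tri₂ hT _ _ h1 h2 =>
    obtain ⟨L1, a1, b1⟩ := h1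
    obtain ⟨L2, a2, b2⟩ := h2
    exact ⟨L1 ++ L2, key a1 a2, .tri₂ hT (b1.mono fun P hP => List.mem_append_left _ hP)
      (b2.mono fun P hP => List.mem_append_right _ hP)⟩
  | tri₃ hT _ _ h1 h2 =>
    obtain ⟨L1, a1, b1⟩ := h1
    obtain ⟨L2, a2, b2⟩ := h2
    exact ⟨L1 ++ L2, key a1 a2, .tri₃ hT (b1.mono fun P hP => List.mem_append_left _ hP)
      (b2.mono fun P hP => List.mem_append_right _ hP)⟩

end Built

section

variable {C : Type u} [Category.{v} C] [Preadditive C] [HasZeroObject C] [HasShift C ℤ]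
  [∀ n : ℤ, (shiftFunctor C n).Additive] [Pretriangulated C] [MonoidalCategory C]
  [SymmetricCategory C] [TensorTriangulated C] {E : Type w} [Field E] [CharZero E]
  {E' : Type w} [Field E'] [CharZero E']
  {R : Realisation C E} {R' : Realisation C E'} (F : R.H ⟶ R.H) (F' : R'.H ⟶ R'.H)

/-- rational polynomials in `E` -/
noncomputable def mp (E : Type w) [Field E] [CharZero E] (p : ℚ[X]) : E[X] :=
  p.map (algebraMap ℚ E)

lemma mp_inj {p q : ℚ[X]} (h : mp E p = mp E q) : p = q :=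
  Polynomial.map_injective _ (algebraMap ℚ E).injective h

lemma mp_mul (p q : ℚ[X]) : mp E (p * q) = mp E p * mp E q := Polynomial.map_mul _

lemma mp_ne {p : ℚ[X]} (h : p ≠ 0) : mp E p ≠ 0 := by
  intro h0
  apply h
  apply mp_inj (E := E)
  rw [h0, mp, Polynomial.map_zero]

lemma evp_ne {u : ℤ → E[X]} (h : ∀ i, u i ≠ 0) : evp u ≠ 0 := by
  rw [evp]
  refine finprod_induction (· ≠ 0) one_ne_zero (fun _ _ => mul_ne_zero) fun i => ?_
  split_ifs
  · exact h i
  · exact one_ne_zero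

lemma odp_ne {u : ℤ → E[X]} (h : ∀ i, u i ≠ 0) : odp u ≠ 0 := by
  rw [odp]
  refine finprod_induction (· ≠ 0) one_ne_zero (fun _ _ => mul_ne_zero) fun i => ?_
  split_ifs
  · exact one_ne_zero
  · exact h i

lemma mp_evp {p : ℤ → ℚ[X]} (h : Fs p) : mp E (evp p) = evp fun i => mp E (p i) := by
  have h1 : Polynomial.map (algebraMap ℚ E) (∏ᶠ i : ℤ, if Even i then p i else 1) =
      ∏ᶠ i : ℤ, Polynomial.map (algebraMap ℚ E) (if Even i then p i else 1) :=
    MonoidHom.map_finprod (Polynomial.mapRingHom (algebraMap ℚ E)).toMonoidHom h.ev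
  rw [mp, evp, h1, evp]
  refine finprod_congr fun i => ?_
  split_ifs
  · rfl
  · simp

lemma mp_odp {p : ℤ → ℚ[X]} (h : Fs p) : mp E (odp p) = odp fun i => mp E (p i) := by
  have h1 : Polynomial.map (algebraMap ℚ E) (∏ᶠ i : ℤ, if Even i then 1 else p i) =
      ∏ᶠ i : ℤ, Polynomial.map (algebraMap ℚ E) (if Even i then 1 else p i) :=
    MonoidHom.map_finprod (Polynomial.mapRingHom (algebraMap ℚ E)).toMonoidHom h.od
  rw [mp, odp, h1, odp]
  refine finprod_congr fun i => ?_
  split_ifs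
  · simp
  · rfl

/-- The alternating products of the characteristic polynomials of `F` and `F'` agree and are
rational. -/
def Compat (X : C) : Prop := ∃ A B : ℚ[X], A ≠ 0 ∧ B ≠ 0 ∧
  evp (cp F X) * mp E B = odp (cp F X) * mp E A ∧
  evp (cp F' X) * mp E' B = odp (cp F' X) * mp E' A

lemma compat_zero {X : C} (h : IsZero X) : Compat F F' X := by
  have h1 : ∀ i, cp F X i = 1 := fun i =>
    cp_eq_one F (R.H.map_isZero ((shiftFunctor C i).map_isZero h))
  have h2 : ∀ i, cp F' X i = 1 := fun i =>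
    cp_eq_one F' (R'.H.map_isZero ((shiftFunctor C i).map_isZero h))
  refine ⟨1, 1, one_ne_zero, one_ne_zero, ?_, ?_⟩
  · rw [evp_one fun i _ => h1 i, odp_one fun i _ => h1 i]
  · rw [evp_one fun i _ => h2 i, odp_one fun i _ => h2 i]

lemma compat_of {X : C} (p : ℤ → ℚ[X]) (h : ∀ i, cp F X i = mp E (p i))
    (h' : ∀ i, cp F' X i = mp E' (p i)) : Compat F F' X := by
  have h0 : ∀ i, p i ≠ 0 := by
    intro i hi
    have h1 := h i
    rw [hi, mp, Polynomial.map_zero] at h1
    exact cp_ne_zero F X i h1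
  have hp : Fs p := by
    obtain ⟨N, hN⟩ := cp_fs F X
    refine ⟨N, fun i hi => mp_inj (E := E) ?_⟩
    rw [← h, hN i hi, mp, Polynomial.map_one]
  have hne : ∀ {G : Type w} [Field G] [CharZero G], evp (fun i => mp G (p i)) ≠ 0 ∧
      odp (fun i => mp G (p i)) ≠ 0 := fun {G} _ _ =>
    ⟨evp_ne fun i => mp_ne (h0 i), odp_ne fun i => mp_ne (h0 i)⟩
  refine ⟨evp p, odp p, ?_, ?_, ?_, ?_⟩
  · intro h1
    apply (hne (G := E)).1
    rw [← mp_evp hp, h1, mp, Polynomial.map_zero]
  · intro h1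
    apply (hne (G := E)).2
    rw [← mp_odp hp, h1, mp, Polynomial.map_zero]
  · rw [mp_evp hp, mp_odp hp, show cp F X = _ from funext h, mul_comm]
  · rw [mp_evp hp, mp_odp hp, show cp F' X = _ from funext h', mul_comm]

section Tri

variable {X Y Z : C} {f : X ⟶ Y} {g : Y ⟶ Z} {h : Z ⟶ X⟦(1 : ℤ)⟧}
  (hT : Triangle.mk f g h ∈ distTriang C)

include hT

lemma compat_tri₂ (hx : Compat F F' X) (hz : Compat F F' Z) : Compat F F' Y := by
  obtain ⟨A, B, hA, hB, h1, h2⟩ := hx
  obtain ⟨A', B', hA', hB', h3, h4⟩ := hz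
  refine ⟨A * A', B * B', mul_ne_zero hA hA', mul_ne_zero hB hB', ?_, ?_⟩
  · have h5 := cp_euler F hT
    have h6 : odp (cp F X) * odp (cp F Z) ≠ 0 :=
      mul_ne_zero (odp_ne (cp_ne_zero F X)) (odp_ne (cp_ne_zero F Z))
    apply mul_left_cancel₀ h6
    rw [mp_mul, mp_mul]
    linear_combination (-(mp E B * mp E B')) * h5 + (odp (cp F Y) * evp (cp F Z) * mp E B') * h1 +
      (odp (cp F Y) * odp (cp F X) * mp E A) * h3
  · have h5 := cp_euler F' hT
    have h6 : odp (cp F' X) * odp (cp F' Z) ≠ 0 :=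
      mul_ne_zero (odp_ne (cp_ne_zero F' X)) (odp_ne (cp_ne_zero F' Z))
    apply mul_left_cancel₀ h6
    rw [mp_mul, mp_mul]
    linear_combination (-(mp E' B * mp E' B')) * h5 +
      (odp (cp F' Y) * evp (cp F' Z) * mp E' B') * h2 +
      (odp (cp F' Y) * odp (cp F' X) * mp E' A) * h4

lemma compat_tri₁ (hy : Compat F F' Y) (hz : Compat F F' Z) : Compat F F' X := by
  obtain ⟨A, B, hA, hB, h1, h2⟩ := hy
  obtain ⟨A', B', hA', hB', h3, h4⟩ := hz
  refine ⟨A * B', B * A', mul_ne_zero hA hB', mul_ne_zero hB hA', ?_, ?_⟩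
  · have h5 := cp_euler F hT
    have h6 : odp (cp F Y) * odp (cp F Z) ≠ 0 :=
      mul_ne_zero (odp_ne (cp_ne_zero F Y)) (odp_ne (cp_ne_zero F Z))
    apply mul_left_cancel₀ h6
    rw [mp_mul, mp_mul]
    linear_combination (mp E B * mp E B') * h5 - (evp (cp F X) * odp (cp F Y) * mp E B) * h3 +
      (odp (cp F X) * odp (cp F Z) * mp E B') * h1
  · have h5 := cp_euler F' hT
    have h6 : odp (cp F' Y) * odp (cp F' Z) ≠ 0 :=
      mul_ne_zero (odp_ne (cp_ne_zero F' Y)) (odp_ne (cp_ne_zero F' Z))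
    apply mul_left_cancel₀ h6
    rw [mp_mul, mp_mul]
    linear_combination (mp E' B * mp E' B') * h5 - (evp (cp F' X) * odp (cp F' Y) * mp E' B) * h4 +
      (odp (cp F' X) * odp (cp F' Z) * mp E' B') * h2

lemma compat_tri₃ (hx : Compat F F' X) (hy : Compat F F' Y) : Compat F F' Z := by
  obtain ⟨A, B, hA, hB, h1, h2⟩ := hy
  obtain ⟨A', B', hA', hB', h3, h4⟩ := hx
  refine ⟨A * B', B * A', mul_ne_zero hA hB', mul_ne_zero hB hA', ?_, ?_⟩
  · have h5 := cp_euler F hT
    have h6 : odp (cp F Y) * odp (cp F X) ≠ 0 :=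
      mul_ne_zero (odp_ne (cp_ne_zero F Y)) (odp_ne (cp_ne_zero F X))
    apply mul_left_cancel₀ h6
    rw [mp_mul, mp_mul]
    linear_combination (mp E B * mp E B') * h5 - (evp (cp F Z) * odp (cp F Y) * mp E B) * h3 +
      (odp (cp F X) * odp (cp F Z) * mp E B') * h1
  · have h5 := cp_euler F' hT
    have h6 : odp (cp F' Y) * odp (cp F' X) ≠ 0 :=
      mul_ne_zero (odp_ne (cp_ne_zero F' Y)) (odp_ne (cp_ne_zero F' X))
    apply mul_left_cancel₀ h6
    rw [mp_mul, mp_mul]
    linear_combination (mp E' B * mp E' B') * h5 - (evp (cp F' Z) * odp (cp F' Y) * mp E' B) * h4 +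
      (odp (cp F' X) * odp (cp F' Z) * mp E' B') * h2

end Tri

theorem compat_built {Q : C → Prop} (hQ : ∀ X, Q X → Compat F F' X) {X : C} (h : Built Q X) :
    Compat F F' X := by
  induction h with
  | of h => exact hQ _ h
  | zero h => exact compat_zero F F' h
  | tri₁ hT _ _ h1 h2 => exact compat_tri₁ F F' hT h1 h2
  | tri₂ hT _ _ h1 h2 => exact compat_tri₂ F F' hT h1 h2
  | tri₃ hT _ _ h1 h2 => exact compat_tri₃ F F' hT h1 h2

/-- An object whose cohomology is in degree zero for `R` and in even degrees for `R'`. -/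
theorem compat_heart {S : C} (hS : Compat F F' S) (h0 : ∀ i : ℤ, i ≠ 0 → IsZero (R.H.obj (S⟦i⟧)))
    (h1 : ∀ i : ℤ, Odd i → IsZero (R'.H.obj (S⟦i⟧))) {p : ℚ[X]} (hp : cp F S 0 = mp E p) (i : ℤ) :
    cp F' S i ∣ mp E' p := by
  obtain ⟨A, B, hA, hB, h2, h3⟩ := hS
  rw [evp_single fun i hi => cp_eq_one F (h0 i hi), odp_one fun i hi => cp_eq_one F
    (h0 i (by rintro rfl; simp at hi)), hp, one_mul, ← mp_mul] at h2
  have h4 := mp_inj h2
  rw [odp_one fun i hi => cp_eq_one F' (h1 i hi), one_mul, ← h4, mp_mul] at h3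
  have h5 := mul_right_cancel₀ (mp_ne hB) h3
  rw [← h5]
  by_cases hi : Even i
  · exact dvd_evp (cp_fs F' S) hi
  · rw [cp_eq_one F' (h1 i (Int.not_even_iff_odd.1 hi))]
    exact one_dvd _

end

end Pool.Agent.V1139.MT
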